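import Mathlib

/-!
The group generated by `T^2` and `S T^2 S^-1`: six cosets in SL(2,Z) up to sign; thick points.
-/

open Matrix Matrix.SpecialLinearGroup ModularGroup UpperHalfPlane
open scoped MatrixGroups Modular

namespace GP

/-- the group generated by `tau -> tau+2` and `tau -> tau/(1-2tau)` -/
def Gam : Subgroup SL(2, ℤ) := Subgroup.closure {T ^ 2, S * T ^ 2 * S⁻¹}

/-- the same with `-1` added -/
def GamPM : Subgroup SL(2, ℤ) := Subgroup.closure {T ^ 2, S * T ^ 2 * S⁻¹, -1}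

/-- representatives of the cosets -/
def reps : List SL(2, ℤ) := [1, T, S, T * S, S * T, T * S * T]

theorem T2_mem : T ^ 2 ∈ Gam := Subgroup.subset_closure (by simp)
theorem g2_mem : S * T ^ 2 * S⁻¹ ∈ Gam := Subgroup.subset_closure (by simp)

theorem T2_mem' : T ^ 2 ∈ GamPM := Subgroup.subset_closure (by simp)
theorem g2_mem' : S * T ^ 2 * S⁻¹ ∈ GamPM := Subgroup.subset_closure (by simp)
theorem neg_mem' : (-1 : SL(2, ℤ)) ∈ GamPM := Subgroup.subset_closure (by simp)

theorem Gam_le : Gam ≤ GamPM := by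
  apply Subgroup.closure_mono
  intro x hx
  simp only [Set.mem_insert_iff, Set.mem_singleton_iff] at hx ⊢
  tauto

theorem conj_S {γ : SL(2, ℤ)} (h : γ ∈ GamPM) : S * γ * S⁻¹ ∈ GamPM := by
  induction h using Subgroup.closure_induction with
  | mem x hx =>
    simp only [Set.mem_insert_iff, Set.mem_singleton_iff] at hx
    rcases hx with rfl | rfl | rfl
    · exact g2_mem'
    · have e : S * (S * T ^ 2 * S⁻¹) * S⁻¹ = T ^ 2 := by decide
      rw [e]; exact T2_mem'
    · have e : S * (-1) * S⁻¹ = (-1 : SL(2, ℤ)) := by decide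
      rw [e]; exact neg_mem'
  | one => simp
  | mul x y _ _ hx hy =>
    have e : S * (x * y) * S⁻¹ = (S * x * S⁻¹) * (S * y * S⁻¹) := by group
    rw [e]; exact GamPM.mul_mem hx hy
  | inv x _ hx =>
    have e : S * x⁻¹ * S⁻¹ = (S * x * S⁻¹)⁻¹ := by group
    rw [e]; exact GamPM.inv_mem hx

theorem conj_T {γ : SL(2, ℤ)} (h : γ ∈ GamPM) : T * γ * T⁻¹ ∈ GamPM := by
  induction h using Subgroup.closure_induction with
  | mem x hx =>
    simp only [Set.mem_insert_iff, Set.mem_singleton_iff] at hx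
    rcases hx with rfl | rfl | rfl
    · have e : T * T ^ 2 * T⁻¹ = T ^ 2 := by decide
      rw [e]; exact T2_mem'
    · have e : T * (S * T ^ 2 * S⁻¹) * T⁻¹ = -1 * (T ^ 2 * (S * T ^ 2 * S⁻¹))⁻¹ := by decide
      rw [e]
      exact GamPM.mul_mem neg_mem' (GamPM.inv_mem (GamPM.mul_mem T2_mem' g2_mem'))
    · have e : T * (-1) * T⁻¹ = (-1 : SL(2, ℤ)) := by decide
      rw [e]; exact neg_mem'
  | one => simp
  | mul x y _ _ hx hy =>
    have e : T * (x * y) * T⁻¹ = (T * x * T⁻¹) * (T * y * T⁻¹) := by group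
    rw [e]; exact GamPM.mul_mem hx hy
  | inv x _ hx =>
    have e : T * x⁻¹ * T⁻¹ = (T * x * T⁻¹)⁻¹ := by group
    rw [e]; exact GamPM.inv_mem hx

/-- the product set -/
def PS (g : SL(2, ℤ)) : Prop := ∃ γ ∈ GamPM, ∃ r ∈ reps, g = γ * r

theorem S_rep {r : SL(2, ℤ)} (hr : r ∈ reps) : PS (S * r) := by
  simp only [reps, List.mem_cons, List.not_mem_nil, or_false] at hr
  rcases hr with rfl | rfl | rfl | rfl | rfl | rfl
  · exact ⟨1, GamPM.one_mem, S, by decide, by decide⟩
  · exact ⟨1, GamPM.one_mem, S * T, by decide, by decide⟩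
  · exact ⟨-1, neg_mem', 1, by decide, by decide⟩
  · exact ⟨-1 * (S * T ^ 2 * S⁻¹), GamPM.mul_mem neg_mem' g2_mem', T * S * T, by decide, by decide⟩
  · exact ⟨-1, neg_mem', T, by decide, by decide⟩
  · exact ⟨(T ^ 2)⁻¹, GamPM.inv_mem T2_mem', T * S, by decide, by decide⟩

theorem T_rep {r : SL(2, ℤ)} (hr : r ∈ reps) : PS (T * r) := by
  simp only [reps, List.mem_cons, List.not_mem_nil, or_false] at hr
  rcases hr with rfl | rfl | rfl | rfl | rfl | rfl
  · exact ⟨1, GamPM.one_mem, T, by decide, by decide⟩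
  · exact ⟨T ^ 2, T2_mem', 1, by decide, by decide⟩
  · exact ⟨1, GamPM.one_mem, T * S, by decide, by decide⟩
  · exact ⟨T ^ 2, T2_mem', S, by decide, by decide⟩
  · exact ⟨1, GamPM.one_mem, T * S * T, by decide, by decide⟩
  · exact ⟨T ^ 2, T2_mem', S * T, by decide, by decide⟩

theorem PS_mul_left {γ g : SL(2, ℤ)} (hγ : γ ∈ GamPM) (h : PS g) : PS (γ * g) := by
  obtain ⟨δ, hδ, r, hr, rfl⟩ := h
  exact ⟨γ * δ, GamPM.mul_mem hγ hδ, r, hr, by group⟩

theorem PS_S {g : SL(2, ℤ)} (h : PS g) : PS (S * g) := by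
  obtain ⟨γ, hγ, r, hr, rfl⟩ := h
  have e : S * (γ * r) = (S * γ * S⁻¹) * (S * r) := by group
  rw [e]
  exact PS_mul_left (conj_S hγ) (S_rep hr)

theorem PS_T {g : SL(2, ℤ)} (h : PS g) : PS (T * g) := by
  obtain ⟨γ, hγ, r, hr, rfl⟩ := h
  have e : T * (γ * r) = (T * γ * T⁻¹) * (T * r) := by group
  rw [e]
  exact PS_mul_left (conj_T hγ) (T_rep hr)

theorem PS_all (g : SL(2, ℤ)) : PS g := by
  have hg : g ∈ Subgroup.closure ({S, T} : Set SL(2, ℤ)) := by
    rw [SpecialLinearGroup.SL2Z_generators]; trivial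
  induction hg using Subgroup.closure_induction_left with
  | one => exact ⟨1, GamPM.one_mem, 1, by decide, by decide⟩
  | mul_left x hx y _ hy =>
    simp only [Set.mem_insert_iff, Set.mem_singleton_iff] at hx
    rcases hx with rfl | rfl
    · exact PS_S hy
    · exact PS_T hy
  | inv_mul_cancel x hx y _ hy =>
    simp only [Set.mem_insert_iff, Set.mem_singleton_iff] at hx
    rcases hx with rfl | rfl
    · have e : S⁻¹ * y = -1 * (S * y) := by
        have : (S⁻¹ : SL(2, ℤ)) = -1 * S := by decide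
        rw [this, mul_assoc]
      rw [e]
      exact PS_mul_left neg_mem' (PS_S hy)
    · have e : T⁻¹ * y = (T ^ 2)⁻¹ * (T * y) := by group
      rw [e]
      exact PS_mul_left (GamPM.inv_mem T2_mem') (PS_T hy)

theorem mem_GamPM_iff {γ : SL(2, ℤ)} (h : γ ∈ GamPM) : γ ∈ Gam ∨ -γ ∈ Gam := by
  induction h using Subgroup.closure_induction with
  | mem x hx =>
    simp only [Set.mem_insert_iff, Set.mem_singleton_iff] at hx
    rcases hx with rfl | rfl | rfl
    · exact Or.inl T2_mem
    · exact Or.inl g2_mem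
    · right; rw [neg_neg]; exact Gam.one_mem
  | one => exact Or.inl Gam.one_mem
  | mul x y _ _ hx hy =>
    rcases hx with hx | hx <;> rcases hy with hy | hy
    · exact Or.inl (Gam.mul_mem hx hy)
    · right
      have e : -(x * y) = x * (-y) := by simp
      rw [e]; exact Gam.mul_mem hx hy
    · right
      have e : -(x * y) = (-x) * y := by simp
      rw [e]; exact Gam.mul_mem hx hy
    · left
      have e : x * y = (-x) * (-y) := by simp
      rw [e]; exact Gam.mul_mem hx hy
  | inv x _ hx =>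
    rcases hx with hx | hx
    · exact Or.inl (Gam.inv_mem hx)
    · right
      have e : -(x⁻¹) = (-x)⁻¹ := by
        rw [eq_inv_iff_mul_eq_one]; simp
      rw [e]; exact Gam.inv_mem hx

/-- parity (2.3) -/
theorem Gam_parity {γ : SL(2, ℤ)} (h : γ ∈ GamPM) :
    Odd (γ 0 0) ∧ Even (γ 0 1) ∧ Even (γ 1 0) ∧ Odd (γ 1 1) := by
  induction h using Subgroup.closure_induction with
  | mem x hx =>
    simp only [Set.mem_insert_iff, Set.mem_singleton_iff] at hx
    rcases hx with rfl | rfl | rfl <;> decide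
  | one => decide
  | mul x y _ _ hx hy =>
    obtain ⟨h1, h2, h3, h4⟩ := hx
    obtain ⟨k1, k2, k3, k4⟩ := hy
    have e : ∀ i j, (x * y) i j = x i 0 * y 0 j + x i 1 * y 1 j := by
      intro i j
      have := congrFun (congrFun (Matrix.SpecialLinearGroup.coe_mul x y) i) j
      rw [Matrix.mul_apply, Fin.sum_univ_two] at this
      exact this
    rw [e, e, e, e]
    exact ⟨(h1.mul k1).add_even (h2.mul_right _), (k2.mul_left _).add (h2.mul_right _),
      (h3.mul_right _).add (k3.mul_left _), Even.add_odd (h3.mul_right _) (h4.mul k4)⟩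
  | inv x _ hx =>
    obtain ⟨h1, h2, h3, h4⟩ := hx
    rw [SpecialLinearGroup.SL2_inv_expl x]
    simp only [Matrix.cons_val', Matrix.cons_val_zero, Matrix.cons_val_one,
      Matrix.cons_val_fin_one]
    exact ⟨h4, h2.neg, h3.neg, h1⟩

end GP
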