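import Mathlib

/-!
(2.1): the set of x in [0,2p] for which x+ih lies in a deep horoball has measure at most 6p/K.
-/

open MeasureTheory Set Real

namespace GP

/-- points `x` of `[0,2p]` with `x + i h` in a horoball of level `K` -/
def deep (p : ℕ) (h K : ℝ) : Set ℝ :=
  {x : ℝ | x ∈ Icc (0:ℝ) (2*p) ∧ ∃ c d : ℤ, IsCoprime c d ∧ K * ((c*x+d)^2 + (c*h)^2) < h}

theorem deep_subset {p : ℕ} (hp : 0 < p) {h K : ℝ} (hh0 : 0 < h) (hh1 : h ≤ 1) (hK : 1 ≤ K) :
    deep p h K ⊆ ⋃ c ∈ Finset.Icc 1 ⌊(√(h * K))⁻¹⌋₊, ⋃ m ∈ Finset.range (2 * p * c + 1),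
      Ioo (((m:ℝ) - √(h/K)) / c) (((m:ℝ) + √(h/K)) / c) := by
  have hK0 : 0 < K := by linarith
  rintro x ⟨⟨hx0, hx1⟩, c, d, hcd, hlt⟩
  have hp1 : (1:ℝ) ≤ p := by exact_mod_cast hp
  -- c is nonzero
  have hc : c ≠ 0 := by
    rintro rfl
    have hd : IsUnit d := isCoprime_zero_left.mp hcd
    have hd2 : ((d:ℝ))^2 = 1 := by
      rcases Int.isUnit_iff.mp hd with h1 | h1 <;> rw [h1] <;> norm_num
    simp only [Int.cast_zero, zero_mul, zero_add, hd2] at hlt
    nlinarith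
  -- reduce to c > 0
  obtain ⟨c', d', hc', hlt'⟩ : ∃ c' : ℕ, ∃ d' : ℤ, 0 < c' ∧ K * ((c'*x+d')^2 + (c'*h)^2) < h := by
    rcases lt_or_gt_of_ne hc with hneg | hpos
    · refine ⟨c.natAbs, -d, Int.natAbs_pos.mpr hc, ?_⟩
      have h1 : ((c.natAbs : ℕ) : ℝ) = -(c:ℝ) := by
        rw [Nat.cast_natAbs, abs_of_neg hneg, Int.cast_neg]
      rw [h1]
      push_cast
      have e1 : (-(c:ℝ) * x + -(d:ℝ))^2 = (c*x+d)^2 := by ring
      have e2 : (-(c:ℝ) * h)^2 = (c*h)^2 := by ring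
      rw [e1, e2]; exact hlt
    · refine ⟨c.natAbs, d, Int.natAbs_pos.mpr hc, ?_⟩
      have h1 : ((c.natAbs : ℕ) : ℝ) = (c:ℝ) := by
        rw [Nat.cast_natAbs, abs_of_pos hpos]
      rw [h1]; exact hlt
  have hc0 : (0:ℝ) < c' := by exact_mod_cast hc'
  have hlt2 : (c'*x+d')^2 + (c'*h)^2 < h / K := by
    rw [lt_div_iff₀ hK0]; linarith
  have hA : |(c'*x+d' : ℝ)| < √(h/K) := by
    apply Real.lt_sqrt_of_sq_lt
    rw [sq_abs]
    nlinarith [sq_nonneg ((c':ℝ)*h)]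
  have hB : ((c':ℝ)*h)^2 < h/K := by nlinarith [sq_nonneg ((c'*x+d' : ℝ))]
  have hsqrt1 : √(h/K) ≤ 1 := by
    rw [Real.sqrt_le_one]
    rw [div_le_one hK0]; linarith
  -- bound of c'
  have hC : (c':ℝ) ≤ (√(h*K))⁻¹ := by
    have hhK : 0 < h * K := by positivity
    have hs : 0 < √(h*K) := Real.sqrt_pos.mpr hhK
    rw [le_inv_comm₀ hc0 hs]
    apply Real.sqrt_le_iff.mpr
    refine ⟨by positivity, ?_⟩
    rw [inv_pow, le_inv_comm₀ hhK (by positivity), inv_eq_one_div, le_div_iff₀ hhK]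
    rw [lt_div_iff₀ hK0] at hB
    nlinarith
  have hm0 : 0 ≤ -d' := by
    have h1 : (-1:ℝ) < -d' := by
      have := (abs_lt.mp hA).2
      have h3 : 0 ≤ (c':ℝ) * x := by positivity
      linarith
    have : (-1:ℤ) < -d' := by exact_mod_cast h1
    omega
  have hm1 : -d' ≤ 2 * p * c' := by
    have h1 : (-d':ℝ) < 2 * p * c' + 1 := by
      have := (abs_lt.mp hA).1
      have h3 : (c':ℝ) * x ≤ c' * (2 * p) := by
        apply mul_le_mul_of_nonneg_left hx1 hc0.le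
      linarith
    have : (-d' : ℤ) < 2 * p * c' + 1 := by exact_mod_cast h1
    omega
  simp only [mem_iUnion]
  refine ⟨c', ?_, (-d').toNat, ?_, ?_⟩
  · rw [Finset.mem_Icc]
    exact ⟨hc', Nat.le_floor hC⟩
  · rw [Finset.mem_range]
    have : ((-d').toNat : ℤ) = -d' := Int.toNat_of_nonneg hm0
    have h2 : ((-d').toNat : ℤ) < ((2 * p * c' + 1 : ℕ) : ℤ) := by
      rw [this]; push_cast; omega
    exact_mod_cast h2
  · have h1 : (((-d').toNat : ℕ) : ℝ) = -(d':ℝ) := by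
      have : ((-d').toNat : ℤ) = -d' := Int.toNat_of_nonneg hm0
      exact_mod_cast congrArg (Int.cast : ℤ → ℝ) this
    rw [h1]
    have h2 := abs_lt.mp hA
    constructor
    · rw [div_lt_iff₀ hc0]; linarith [h2.1]
    · rw [lt_div_iff₀ hc0]; linarith [h2.2]

theorem volume_deep_le {p : ℕ} (hp : 0 < p) {h K : ℝ} (hh0 : 0 < h) (hh1 : h ≤ 1) (hK : 1 ≤ K) :
    volume (deep p h K) ≤ ENNReal.ofReal (6 * p / K) := by
  have hK0 : 0 < K := by linarith
  have hp1 : (1:ℝ) ≤ p := by exact_mod_cast hp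
  have hhK : 0 < h * K := by positivity
  have hs : 0 < √(h*K) := Real.sqrt_pos.mpr hhK
  set N := ⌊(√(h * K))⁻¹⌋₊ with hN
  calc volume (deep p h K)
      ≤ volume (⋃ c ∈ Finset.Icc 1 N, ⋃ m ∈ Finset.range (2 * p * c + 1),
          Ioo (((m:ℝ) - √(h/K)) / c) (((m:ℝ) + √(h/K)) / c)) :=
        measure_mono (deep_subset hp hh0 hh1 hK)
    _ ≤ ∑ c ∈ Finset.Icc 1 N, volume (⋃ m ∈ Finset.range (2 * p * c + 1),
          Ioo (((m:ℝ) - √(h/K)) / c) (((m:ℝ) + √(h/K)) / c)) := measure_biUnion_finset_le _ _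
    _ ≤ ∑ c ∈ Finset.Icc 1 N, ENNReal.ofReal (6 * p * √(h/K)) := by
        apply Finset.sum_le_sum
        intro c hc
        rw [Finset.mem_Icc] at hc
        have hc0 : (0:ℝ) < c := by exact_mod_cast hc.1
        have hc1 : (1:ℝ) ≤ c := by exact_mod_cast hc.1
        refine (measure_biUnion_finset_le _ _).trans ?_
        have h1 : ∀ m ∈ Finset.range (2 * p * c + 1),
            volume (Ioo (((m:ℝ) - √(h/K)) / c) (((m:ℝ) + √(h/K)) / c))
              = ENNReal.ofReal (2 * √(h/K) / c) := by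
          intro m _
          rw [Real.volume_Ioo]
          congr 1
          ring
        rw [Finset.sum_congr rfl h1, Finset.sum_const, Finset.card_range, nsmul_eq_mul,
          ← ENNReal.ofReal_natCast, ← ENNReal.ofReal_mul (by positivity)]
        apply ENNReal.ofReal_le_ofReal
        have hsq : 0 ≤ √(h/K) := Real.sqrt_nonneg _
        rw [mul_div_assoc', div_le_iff₀ hc0]
        push_cast
        have h2 : (2 * (p:ℝ) * c + 1) * 2 ≤ 6 * p * c := by nlinarith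
        nlinarith [mul_le_mul_of_nonneg_right h2 hsq]
    _ ≤ ENNReal.ofReal (6 * p / K) := by
        rw [Finset.sum_const, Nat.card_Icc, Nat.add_sub_cancel, nsmul_eq_mul,
          ← ENNReal.ofReal_natCast, ← ENNReal.ofReal_mul (by positivity)]
        apply ENNReal.ofReal_le_ofReal
        have h1 : (N:ℝ) ≤ (√(h*K))⁻¹ := Nat.floor_le (by positivity)
        have h2 : (√(h*K))⁻¹ * √(h/K) = 1 / K := by
          rw [Real.sqrt_mul hh0.le, Real.sqrt_div hh0.le]
          have e1 : √h ≠ 0 := (Real.sqrt_pos.mpr hh0).ne'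
          have e2 : √K ≠ 0 := (Real.sqrt_pos.mpr hK0).ne'
          have e3 : √K * √K = K := Real.mul_self_sqrt hK0.le
          field_simp
          nlinarith
        have hsq : 0 ≤ √(h/K) := Real.sqrt_nonneg _
        calc (N:ℝ) * (6 * p * √(h/K)) = 6 * p * (N * √(h/K)) := by ring
          _ ≤ 6 * p * ((√(h*K))⁻¹ * √(h/K)) := by
              apply mul_le_mul_of_nonneg_left _ (by positivity)
              exact mul_le_mul_of_nonneg_right h1 hsq
          _ = 6 * p / K := by rw [h2]; ring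

end GP
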