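import Mathlib
import Pool.Agent.Helper32.GP.Cusp1
import Pool.Agent.Helper32.GP.Cusp2

/-!
(2.2): a thick point `z` is `γ z'` with `γ` in `Gam` and `z'` in a compact box; position of the cusp `a/c`.
-/

open Matrix Matrix.SpecialLinearGroup ModularGroup UpperHalfPlane
open scoped MatrixGroups Modular

namespace GP

theorem normSq_denom_eq (g : SL(2, ℤ)) (z : ℍ) :
    Complex.normSq (denom g z) = ((g 1 0 : ℝ) * z.re + g 1 1) ^ 2 + ((g 1 0 : ℝ) * z.im) ^ 2 := by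
  rw [ModularGroup.denom_apply, Complex.normSq_apply]
  simp
  ring

theorem im_smul_eq' (g : SL(2, ℤ)) (z : ℍ) :
    (g • z).im = z.im / (((g 1 0 : ℝ) * z.re + g 1 1) ^ 2 + ((g 1 0 : ℝ) * z.im) ^ 2) := by
  rw [ModularGroup.im_smul_eq_div_normSq, normSq_denom_eq]

theorem im_smul_le_of_not_deep {p : ℕ} {h K : ℝ} {x : ℝ} (hx0 : 0 ≤ x)
    (hx1 : x ≤ 2 * p) (hx : x ∉ deep p h K) (z : ℍ) (hre : z.re = x) (him : z.im = h)
    (g : SL(2, ℤ)) : (g • z).im ≤ K := by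
  have hz := z.im_pos
  rw [ModularGroup.im_smul_eq_div_normSq, div_le_iff₀ (normSq_denom_pos _ hz.ne'),
    normSq_denom_eq, hre, him]
  by_contra hlt
  push Not at hlt
  apply hx
  refine ⟨⟨hx0, hx1⟩, g 1 0, g 1 1, ?_, hlt⟩
  exact ModularGroup.bottom_row_coprime g

theorem deep_of_im {p : ℕ} {h K : ℝ} {x : ℝ} (hx0 : 0 ≤ x)
    (hx1 : x ≤ 2 * p) (z : ℍ) (hre : z.re = x) (him : z.im = h)
    (g : SL(2, ℤ)) (hg : K < (g • z).im) : x ∈ deep p h K := by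
  have hz := z.im_pos
  rw [ModularGroup.im_smul_eq_div_normSq, lt_div_iff₀ (normSq_denom_pos _ hz.ne'),
    normSq_denom_eq, hre, him] at hg
  exact ⟨⟨hx0, hx1⟩, g 1 0, g 1 1, ModularGroup.bottom_row_coprime g, hg⟩

theorem reps_bottom {r : SL(2, ℤ)} (hr : r ∈ reps) :
    (r 1 0 = 0 ∨ r 1 0 = 1) ∧ (r 1 1 = 0 ∨ r 1 1 = 1) := by
  simp only [reps, List.mem_cons, List.not_mem_nil, or_false] at hr
  rcases hr with rfl | rfl | rfl | rfl | rfl | rfl <;> decide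

theorem thick_point {K : ℝ} (hK : 1 ≤ K) (z : ℍ) (hz : ∀ g : SL(2, ℤ), (g • z).im ≤ K) :
    ∃ γ ∈ Gam, ∃ z' : ℍ, z = γ • z' ∧ |z'.re| ≤ 1 ∧ 1 / (4 * K) ≤ z'.im ∧ z'.im ≤ K := by
  obtain ⟨g, hg⟩ := ModularGroup.exists_smul_mem_fd z
  obtain ⟨γ₀, hγ₀, r, hr, hgr⟩ := PS_all g⁻¹
  set w := g • z with hw
  have hzw : z = γ₀ • (r • w) := by
    rw [← mul_smul, ← hgr, hw, inv_smul_smul]
  set z'' := r • w with hz''
  have him1 : z''.im ≤ K := by
    rw [hz'', hw, ← mul_smul]; exact hz _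
  have hwK : w.im ≤ K := hz g
  have hw3 := ModularGroup.three_le_four_mul_im_sq_of_mem_fd hg
  have hw0 := w.im_pos
  have hwre : |w.re| ≤ 1 / 2 := hg.2
  have him2 : 1 / (4 * K) ≤ z''.im := by
    rw [hz'', ModularGroup.im_smul_eq_div_normSq, div_le_div_iff₀ (by linarith)
      (normSq_denom_pos _ hw0.ne'), normSq_denom_eq, one_mul]
    obtain ⟨hc, hd⟩ := reps_bottom hr
    have hre2 := abs_le.mp hwre
    have hv : (5:ℝ)/6 ≤ w.im := by
      by_contra hlt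
      push Not at hlt
      nlinarith
    have hK2 : w.im * w.im ≤ w.im * K := mul_le_mul_of_nonneg_left hwK hw0.le
    have hKv : (5:ℝ)/6 ≤ w.im * K := by nlinarith
    rcases hc with hc | hc <;> rcases hd with hd | hd <;> rw [hc, hd] <;> push_cast
    · nlinarith
    · nlinarith
    · nlinarith
    · nlinarith
  -- translate
  set m : ℤ := round (z''.re / 2) with hm
  have hround : |z''.re / 2 - m| ≤ 1 / 2 := abs_sub_round _
  have hTm : T ^ (2 * m) ∈ GamPM := by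
    rw [_root_.zpow_mul]
    have : (T ^ (2:ℤ) : SL(2, ℤ)) = T ^ 2 := by norm_cast
    rw [this]
    exact GamPM.zpow_mem T2_mem' m
  set z' := T ^ (-(2 * m)) • z'' with hz'
  have hzz : z = (γ₀ * T ^ (2 * m)) • z' := by
    rw [mul_smul, hz', ← mul_smul (T ^ (2*m)), ← _root_.zpow_add, add_neg_cancel, zpow_zero, one_smul]
    exact hzw
  have hre' : |z'.re| ≤ 1 := by
    rw [hz', ModularGroup.re_T_zpow_smul]
    have h1 := abs_le.mp hround
    rw [abs_le]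
    push_cast
    constructor <;> linarith [h1.1, h1.2]
  have him' : z'.im = z''.im := by rw [hz', ModularGroup.im_T_zpow_smul]
  rcases mem_GamPM_iff (GamPM.mul_mem hγ₀ hTm) with hmem | hmem
  · exact ⟨_, hmem, z', hzz, hre', by rw [him']; exact him2, by rw [him']; exact him1⟩
  · refine ⟨_, hmem, z', ?_, hre', by rw [him']; exact him2, by rw [him']; exact him1⟩
    rw [ModularGroup.SL_neg_smul]; exact hzz

/-- `|γ z - a/c| = 1/(|c| |cz+d|)` squared, in real terms -/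
theorem smul_sub_cusp (γ : SL(2, ℤ)) (z : ℍ) (hc : γ 1 0 ≠ 0) :
    ((γ • z : ℍ) : ℂ) - (γ 0 0 : ℂ) / (γ 1 0 : ℂ) = -1 / ((γ 1 0 : ℂ) * denom γ z) := by
  have hc' : (γ 1 0 : ℂ) ≠ 0 := by exact_mod_cast hc
  have hdz : (γ 1 0 : ℂ) * z + (γ 1 1 : ℂ) ≠ 0 := by
    have := denom_ne_zero (γ : GL (Fin 2) ℝ) z
    rwa [ModularGroup.denom_apply] at this
  have hdet : (γ 0 0 : ℂ) * (γ 1 1 : ℂ) - (γ 0 1 : ℂ) * (γ 1 0 : ℂ) = 1 := by
    have := γ.det_coe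
    rw [Matrix.det_fin_two] at this
    exact_mod_cast congrArg (Int.cast : ℤ → ℂ) this
  rw [UpperHalfPlane.specialLinearGroup_apply, ModularGroup.denom_apply]
  simp only [algebraMap_int_eq, eq_intCast, Complex.ofReal_intCast]
  rw [div_sub_div _ _ hdz hc', div_eq_div_iff (mul_ne_zero hdz hc') (mul_ne_zero hc' hdz)]
  linear_combination (-((γ 1 0 : ℂ) * ((γ 1 0 : ℂ) * z + (γ 1 1 : ℂ)))) * hdet

theorem cusp_facts {γ : SL(2, ℤ)} {z z' : ℍ} (e : z = γ • z') {K : ℝ} (hK : 1 ≤ K)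
    (h1 : 1 / (4 * K) ≤ z'.im) (hsmall : z.im < 1 / (4 * K)) :
    γ 1 0 ≠ 0 ∧ |z.re - (γ 0 0 : ℝ) / (γ 1 0 : ℝ)| ≤ √(4 * K * z.im) / |(γ 1 0 : ℝ)| ∧
      ((γ 1 0 : ℝ)) ^ 2 * z.im ≤ 4 * K := by
  have hK0 : 0 < K := by linarith
  have hz := z.im_pos
  have hz' := z'.im_pos
  have hden : Complex.normSq (denom γ z') = z'.im / z.im := by
    have h2 := ModularGroup.im_smul_eq_div_normSq γ z'
    rw [← e] at h2
    have h3 := normSq_denom_pos (γ : GL (Fin 2) ℝ) (z := (z' : ℂ)) hz'.ne'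
    rw [eq_div_iff h3.ne'] at h2
    rw [eq_div_iff hz.ne']
    linarith
  have hc : γ 1 0 ≠ 0 := by
    intro hc
    have hdet := γ.det_coe
    rw [Matrix.det_fin_two] at hdet
    have hd : γ 1 1 = 1 ∨ γ 1 1 = -1 := by
      have h4 : γ 0 0 * γ 1 1 = 1 := by
        have hc2 : (γ : Matrix (Fin 2) (Fin 2) ℤ) 1 0 = 0 := hc
        rw [hc2] at hdet; linarith
      exact (Int.isUnit_iff.mp (IsUnit.of_mul_eq_one _ (by rw [mul_comm]; exact h4)))
    have h5 : Complex.normSq (denom γ z') = 1 := by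
      rw [normSq_denom_eq, hc]
      rcases hd with hd | hd <;> rw [hd] <;> norm_num
    rw [h5, eq_div_iff hz.ne'] at hden
    linarith
  have hcR : (γ 1 0 : ℝ) ≠ 0 := by exact_mod_cast hc
  have hcpos : 0 < |(γ 1 0 : ℝ)| := abs_pos.mpr hcR
  have hinv : 1 ≤ 4 * K * z'.im := by
    rw [div_le_iff₀ (by positivity)] at h1
    linarith
  refine ⟨hc, ?_, ?_⟩
  · have h6 := smul_sub_cusp γ z' hc
    rw [← e] at h6
    have h7 : |z.re - (γ 0 0 : ℝ) / (γ 1 0 : ℝ)|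
        ≤ ‖(z : ℂ) - (γ 0 0 : ℂ) / (γ 1 0 : ℂ)‖ := by
      have h8 := Complex.abs_re_le_norm ((z : ℂ) - (γ 0 0 : ℂ) / (γ 1 0 : ℂ))
      have h9 : ((z : ℂ) - (γ 0 0 : ℂ) / (γ 1 0 : ℂ)).re = z.re - (γ 0 0 : ℝ) / (γ 1 0 : ℝ) := by
        rw [Complex.sub_re]
        congr 1
        have : ((γ 0 0 : ℂ) / (γ 1 0 : ℂ)) = (((γ 0 0 : ℝ) / (γ 1 0 : ℝ) : ℝ) : ℂ) := by
          push_cast; rfl
        rw [this, Complex.ofReal_re]
      rwa [h9] at h8
    refine h7.trans ?_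
    rw [h6, norm_div, norm_neg, norm_one, norm_mul]
    have h10 : ‖(γ 1 0 : ℂ)‖ = |(γ 1 0 : ℝ)| := Complex.norm_intCast _
    rw [h10, le_div_iff₀ hcpos]
    have hdn : 0 < ‖denom γ z'‖ := by
      rw [norm_pos_iff]; exact denom_ne_zero _ _
    have h11 : ‖denom γ z'‖ ^ 2 = z'.im / z.im := by
      rw [← hden, Complex.normSq_eq_norm_sq]
    have h12 : 1 / (|(γ 1 0 : ℝ)| * ‖denom γ z'‖) * |(γ 1 0 : ℝ)| = ‖denom γ z'‖⁻¹ := by
      field_simp
    rw [h12]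
    apply Real.le_sqrt_of_sq_le
    rw [inv_pow, h11, inv_div, div_le_iff₀ hz']
    nlinarith
  · have h13 : ((γ 1 0 : ℝ) * z'.im) ^ 2 ≤ z'.im / z.im := by
      rw [← hden, normSq_denom_eq]
      nlinarith [sq_nonneg ((γ 1 0 : ℝ) * z'.re + (γ 1 1 : ℝ))]
    rw [le_div_iff₀ hz] at h13
    have h14 : (γ 1 0 : ℝ) ^ 2 * z.im * z'.im ≤ 1 := by
      have : ((γ 1 0 : ℝ) ^ 2 * z.im * z'.im) * z'.im ≤ 1 * z'.im := by nlinarith
      exact le_of_mul_le_mul_right this hz'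
    have h15 : 0 ≤ (γ 1 0 : ℝ) ^ 2 * z.im := by positivity
    nlinarith [mul_le_mul_of_nonneg_left hinv h15]

end GP
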