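import Mathlib
import Pool.Agent.Helper32.GP.Cusp3

/-!
Horocycle geometry used in EXT: pull back of a point above the cusp `a/c`, disjointness of the
intervals, bottom row normalisation, translation by `2m`.
-/

open Matrix Matrix.SpecialLinearGroup ModularGroup UpperHalfPlane
open scoped MatrixGroups Modular

namespace GP

/-- imaginary part after pulling back by `γ = (a b; c d)` -/
theorem im_inv_smul (γ : SL(2, ℤ)) (z : ℍ) :
    (γ⁻¹ • z).im = z.im / (((γ 1 0 : ℝ) * z.re - γ 0 0) ^ 2 + ((γ 1 0 : ℝ) * z.im) ^ 2) := by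
  rw [im_smul_eq']
  have e1 : (γ⁻¹ : SL(2, ℤ)) 1 0 = -(γ 1 0) := by
    rw [Matrix.SpecialLinearGroup.SL2_inv_expl γ]; simp
  have e2 : (γ⁻¹ : SL(2, ℤ)) 1 1 = γ 0 0 := by
    rw [Matrix.SpecialLinearGroup.SL2_inv_expl γ]; simp
  rw [e1, e2]
  push_cast
  congr 1
  ring

/-- `|c z' + d|^2 = Im z' / Im z` for `z = γ z'` -/
theorem normSq_denom_of_smul {γ : SL(2, ℤ)} {z z' : ℍ} (e : z = γ • z') :
    Complex.normSq (denom γ z') = z'.im / z.im := by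
  have hz := z.im_pos
  have hz' := z'.im_pos
  have h2 := ModularGroup.im_smul_eq_div_normSq γ z'
  rw [← e] at h2
  have h3 := normSq_denom_pos (γ : GL (Fin 2) ℝ) (z := (z' : ℂ)) hz'.ne'
  rw [eq_div_iff h3.ne'] at h2
  rw [eq_div_iff hz.ne']
  linarith

theorem norm_denom_of_smul {γ : SL(2, ℤ)} {z z' : ℍ} (e : z = γ • z') :
    ‖denom γ z'‖ ^ 2 = z'.im / z.im := by
  rw [← normSq_denom_of_smul e, Complex.normSq_eq_norm_sq]

/-- above the cusp: for `|x - a/c| ≤ y` the pulled back height is between `1/(2c²y)` and `1/(c²y)` -/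
theorem im_inv_smul_bounds {γ : SL(2, ℤ)} (z : ℍ) (hc : γ 1 0 ≠ 0)
    (hx : |z.re - (γ 0 0 : ℝ) / (γ 1 0 : ℝ)| ≤ z.im) :
    1 / (2 * (γ 1 0 : ℝ) ^ 2 * z.im) ≤ (γ⁻¹ • z).im ∧
      (γ⁻¹ • z).im ≤ 1 / ((γ 1 0 : ℝ) ^ 2 * z.im) := by
  have hz := z.im_pos
  have hcR : (γ 1 0 : ℝ) ≠ 0 := by exact_mod_cast hc
  have hc2 : 0 < (γ 1 0 : ℝ) ^ 2 := by positivity
  rw [im_inv_smul]
  have e : (γ 1 0 : ℝ) * z.re - γ 0 0 = (γ 1 0 : ℝ) * (z.re - (γ 0 0 : ℝ) / (γ 1 0 : ℝ)) := by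
    field_simp
  rw [e]
  set t := z.re - (γ 0 0 : ℝ) / (γ 1 0 : ℝ) with ht
  have ht2 : t ^ 2 ≤ z.im ^ 2 := by
    rw [← sq_abs t]
    exact pow_le_pow_left₀ (abs_nonneg _) hx 2
  have hpos : 0 < ((γ 1 0 : ℝ) * t) ^ 2 + ((γ 1 0 : ℝ) * z.im) ^ 2 := by
    have : 0 < ((γ 1 0 : ℝ) * z.im) ^ 2 := by positivity
    nlinarith [sq_nonneg ((γ 1 0 : ℝ) * t)]
  constructor
  · rw [div_le_div_iff₀ (by positivity) hpos, one_mul]
    have : ((γ 1 0 : ℝ) * t) ^ 2 ≤ (γ 1 0 : ℝ) ^ 2 * z.im ^ 2 := by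
      rw [mul_pow]; exact mul_le_mul_of_nonneg_left ht2 hc2.le
    nlinarith
  · rw [div_le_div_iff₀ hpos (by positivity), one_mul]
    nlinarith [sq_nonneg ((γ 1 0 : ℝ) * t)]

/-- distinct rational numbers with small denominators are far apart -/
theorem rat_far {a c a' c' : ℤ} (hc : 0 < c) (hc' : 0 < c') (hne : a * c' ≠ a' * c) :
    1 / ((c : ℝ) * c') ≤ |(a : ℝ) / c - (a' : ℝ) / c'| := by
  have h1 : (0:ℝ) < c := by exact_mod_cast hc
  have h2 : (0:ℝ) < c' := by exact_mod_cast hc'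
  rw [div_sub_div _ _ h1.ne' h2.ne', abs_div, abs_of_pos (mul_pos h1 h2)]
  apply div_le_div_of_nonneg_right _ (mul_pos h1 h2).le
  have h3 : a * c' - c * a' ≠ 0 := by
    intro h; apply hne; linarith
  have h4 : 1 ≤ |a * c' - c * a'| := Int.one_le_abs h3
  calc (1:ℝ) = ((1:ℤ):ℝ) := by norm_num
    _ ≤ ((|a * c' - c * a'| : ℤ) : ℝ) := by exact_mod_cast h4
    _ = |(a:ℝ) * c' - c * a'| := by push_cast; rfl

/-- for coprime pairs with positive denominators, equality of cross products forces equality -/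
theorem coprime_pair_eq {a c a' c' : ℤ} (hc : 0 < c) (hc' : 0 < c') (h : IsCoprime a c)
    (h' : IsCoprime a' c') (e : a * c' = a' * c) : a = a' ∧ c = c' := by
  have h1 : c ∣ c' := by
    have : c ∣ a * c' := ⟨a', by rw [e]; ring⟩
    exact h.symm.dvd_of_dvd_mul_left this
  have h2 : c' ∣ c := by
    have : c' ∣ a' * c := ⟨a, by rw [← e]; ring⟩
    exact h'.symm.dvd_of_dvd_mul_left this
  have h3 : c = c' := Int.dvd_antisymm hc.le hc'.le h1 h2
  subst h3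
  exact ⟨mul_right_cancel₀ hc.ne' e, rfl⟩

theorem col_coprime (γ : SL(2, ℤ)) : IsCoprime (γ 0 0) (γ 1 0) := by
  refine ⟨γ 1 1, -(γ 0 1), ?_⟩
  have := γ.det_coe
  rw [Matrix.det_fin_two] at this
  linear_combination this

/-- translation on the left -/
theorem T_zpow_mul_col (γ : SL(2, ℤ)) (m : ℤ) :
    (T ^ m * γ) 0 0 = γ 0 0 + m * γ 1 0 ∧ (T ^ m * γ) 1 0 = γ 1 0 := by
  have e : ((T ^ m * γ : SL(2, ℤ)) : Matrix (Fin 2) (Fin 2) ℤ) = !![1, m; 0, 1] * γ := by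
    rw [Matrix.SpecialLinearGroup.coe_mul, ModularGroup.coe_T_zpow]
  constructor
  · have := congrFun (congrFun e 0) 0
    rw [Matrix.mul_apply, Fin.sum_univ_two] at this
    simpa using this
  · have := congrFun (congrFun e 1) 0
    rw [Matrix.mul_apply, Fin.sum_univ_two] at this
    simpa using this

/-- the intervals of radius `y` around the cusps are disjoint and inside `(0, 2p)` -/
theorem cusp_intervals_disjoint {y : ℝ} (hy : 0 < y) {a c a' c' : ℤ} (hc : 0 < c) (hc' : 0 < c')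
    (h : IsCoprime a c) (h' : IsCoprime a' c') (hne : (a, c) ≠ (a', c'))
    (hcy : 4 * (c:ℝ) ^ 2 * y ≤ 1) (hcy' : 4 * (c':ℝ) ^ 2 * y ≤ 1) :
    Disjoint (Set.Ioc ((a:ℝ) / c - y) ((a:ℝ) / c + y)) (Set.Ioc ((a':ℝ) / c' - y) ((a':ℝ) / c' + y)) := by
  have hneq : a * c' ≠ a' * c := by
    intro e
    obtain ⟨h1, h2⟩ := coprime_pair_eq hc hc' h h' e
    exact hne (by rw [h1, h2])
  have hfar := rat_far hc hc' hneq
  have h1 : (0:ℝ) < c := by exact_mod_cast hc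
  have h2 : (0:ℝ) < c' := by exact_mod_cast hc'
  have h4 : 4 * y ≤ 1 / ((c:ℝ) * c') := by
    rw [le_div_iff₀ (mul_pos h1 h2)]
    nlinarith [mul_nonneg hy.le (sq_nonneg ((c:ℝ) - c'))]
  rw [Set.disjoint_left]
  rintro x ⟨hx1, hx2⟩ ⟨hx3, hx4⟩
  have h5 : |(a : ℝ) / c - (a' : ℝ) / c'| ≤ 2 * y := by
    rw [abs_le]; constructor <;> linarith
  linarith

end GP
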