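import Mathlib
import Pool.Agent.GP.Mod
import Pool.Agent.Helper32.GP.Cusp4

/-!
(2.4), (2.5): growth of the theta functions on the upper half plane.
-/

open Matrix.SpecialLinearGroup ModularGroup UpperHalfPlane
open scoped MatrixGroups Modular Real

namespace GP

/-- the three theta functions -/
noncomputable def thv (i : Fin 3) (z : ℂ) : ℂ := ![th2 z, th4 z, th3 z] i

/-- `|th_i| Im` -/
noncomputable def vv (i : Fin 3) (z : ℍ) : ℝ := ‖thv i (z : ℂ)‖ * z.im

theorem thv_zero (z : ℂ) : thv 0 z = th2 z := rfl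
theorem thv_one (z : ℂ) : thv 1 z = th4 z := rfl
theorem thv_two (z : ℂ) : thv 2 z = th3 z := rfl

theorem thv_ne_zero (i : Fin 3) {z : ℂ} (hz : 0 < z.im) : thv i z ≠ 0 := by
  fin_cases i
  · exact th2_ne_zero hz
  · exact th4_ne_zero hz
  · exact th3_ne_zero hz

theorem vv_pos (i : Fin 3) (z : ℍ) : 0 < vv i z :=
  mul_pos (norm_pos_iff.mpr (thv_ne_zero i z.im_pos)) z.im_pos

/-- permutation of the three functions under `S` -/
def permS : Equiv.Perm (Fin 3) := Equiv.swap 0 1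
/-- permutation of the three functions under `T` -/
def permT : Equiv.Perm (Fin 3) := Equiv.swap 1 2

theorem vv_T (i : Fin 3) (z : ℍ) : vv i (T • z) = vv (permT i) z := by
  have h1 : ((T • z : ℍ) : ℂ) = (z : ℂ) + 1 := by
    have := ModularGroup.coe_T_zpow_smul_eq z (n := 1)
    simpa using this
  unfold vv
  rw [h1, ModularGroup.im_T_smul]
  fin_cases i
  · show ‖thv 0 _‖ * _ = ‖thv (permT 0) _‖ * _
    have : permT 0 = 0 := by decide
    rw [this, thv_zero, thv_zero, th2_add_one, norm_neg]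
  · show ‖thv 1 _‖ * _ = ‖thv (permT 1) _‖ * _
    have : permT 1 = 2 := by decide
    rw [this, thv_one, thv_two, th4_add_one]
  · show ‖thv 2 _‖ * _ = ‖thv (permT 2) _‖ * _
    have : permT 2 = 1 := by decide
    rw [this, thv_one, thv_two, th3_add_one]

theorem vv_S (i : Fin 3) (z : ℍ) : vv i (S • z) = vv (permS i) z := by
  have hz : 0 < (z : ℂ).im := z.im_pos
  have hz0 : (z : ℂ) ≠ 0 := z.ne_zero
  have h1 : ((S • z : ℍ) : ℂ) = -1 / (z : ℂ) := by
    rw [UpperHalfPlane.modular_S_smul]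
    show (-(z : ℂ))⁻¹ = _
    rw [neg_div, one_div, inv_neg]
  have h2 : (S • z).im = z.im / ‖(z : ℂ)‖ ^ 2 := by
    rw [ModularGroup.im_smul_eq_div_normSq, ModularGroup.denom_S, Complex.normSq_eq_norm_sq]
  have hn : ‖(z : ℂ)‖ ≠ 0 := norm_ne_zero_iff.mpr hz0
  have key : ∀ w : ℂ, ‖-(z : ℂ) ^ 2 * w‖ * (z.im / ‖(z : ℂ)‖ ^ 2) = ‖w‖ * z.im := by
    intro w
    rw [norm_mul, norm_neg, norm_pow]
    field_simp
  unfold vv
  rw [h1, h2]
  fin_cases i
  · show ‖thv 0 _‖ * _ = ‖thv (permS 0) _‖ * _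
    have : permS 0 = 1 := by decide
    rw [this, thv_zero, thv_one, th2_neg_inv hz, key]
  · show ‖thv 1 _‖ * _ = ‖thv (permS 1) _‖ * _
    have : permS 1 = 0 := by decide
    rw [this, thv_zero, thv_one, th4_neg_inv hz, key]
  · show ‖thv 2 _‖ * _ = ‖thv (permS 2) _‖ * _
    have : permS 2 = 2 := by decide
    rw [this, thv_two, thv_two, th3_neg_inv hz, key]

theorem vv_perm (g : SL(2, ℤ)) : ∃ σ : Equiv.Perm (Fin 3), ∀ (z : ℍ) (i : Fin 3),
    vv i (g • z) = vv (σ i) z := by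
  have hg : g ∈ Subgroup.closure ({S, T} : Set SL(2, ℤ)) := by
    rw [SpecialLinearGroup.SL2Z_generators]; trivial
  induction hg using Subgroup.closure_induction with
  | mem x hx =>
    simp only [Set.mem_insert_iff, Set.mem_singleton_iff] at hx
    rcases hx with rfl | rfl
    · exact ⟨permS, fun z i => vv_S i z⟩
    · exact ⟨permT, fun z i => vv_T i z⟩
  | one => exact ⟨1, fun z i => by simp⟩
  | mul x y _ _ hx hy =>
    obtain ⟨σ, hσ⟩ := hx
    obtain ⟨τ, hτ⟩ := hy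
    refine ⟨τ * σ, fun z i => ?_⟩
    rw [mul_smul, hσ, hτ]; rfl
  | inv x _ hx =>
    obtain ⟨σ, hσ⟩ := hx
    refine ⟨σ⁻¹, fun z i => ?_⟩
    have h1 := hσ (x⁻¹ • z) (σ⁻¹ i)
    rw [smul_inv_smul] at h1
    have h2 : σ (σ⁻¹ i) = i := by simp
    rw [h2] at h1
    exact h1.symm

/-! ### high part -/

theorem norm_qq_le_half {z : ℂ} (hz : 1 / 2 ≤ z.im) : ‖qq z‖ ≤ Real.exp (-(π / 2)) := by
  rw [norm_qq]
  apply Real.exp_le_exp.mpr
  have := Real.pi_pos
  nlinarith

theorem exists_theta_bound : ∃ C : ℝ, 1 ≤ C ∧ ∀ z : ℂ, 1 / 2 ≤ z.im →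
    ‖th2 z‖ ≤ C * Real.exp (-(π * z.im)) ∧ ‖th4 z‖ ≤ C ∧ ‖th3 z‖ ≤ C := by
  have hr : Real.exp (-(π / 2)) < 1 := by
    rw [Real.exp_lt_one_iff]; have := Real.pi_pos; linarith
  have hsub : Metric.closedBall (0:ℂ) (Real.exp (-(π / 2))) ⊆ Metric.ball 0 1 :=
    Metric.closedBall_subset_ball hr
  obtain ⟨C1, h1⟩ := (isCompact_closedBall (0:ℂ) (Real.exp (-(π / 2)))).exists_bound_of_continuousOn
    (differentiableOn_phi4.continuousOn.mono hsub)
  obtain ⟨C2, h2⟩ := (isCompact_closedBall (0:ℂ) (Real.exp (-(π / 2)))).exists_bound_of_continuousOn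
    (differentiableOn_phi2.continuousOn.mono hsub)
  refine ⟨max 1 (max C1 (16 * C2)), le_max_left _ _, fun z hz => ?_⟩
  have hq : qq z ∈ Metric.closedBall (0:ℂ) (Real.exp (-(π / 2))) := by
    rw [mem_closedBall_zero_iff]; exact norm_qq_le_half hz
  have hq' : -qq z ∈ Metric.closedBall (0:ℂ) (Real.exp (-(π / 2))) := by
    rw [mem_closedBall_zero_iff, norm_neg]; exact norm_qq_le_half hz
  refine ⟨?_, ?_, ?_⟩
  · rw [th2_eq, norm_mul, norm_mul, norm_qq]
    have h3 := h2 _ hq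
    have h4 : ‖(16:ℂ)‖ = 16 := by norm_num
    rw [h4]
    have h5 : 16 * C2 ≤ max 1 (max C1 (16 * C2)) := (le_max_right _ _).trans (le_max_right _ _)
    have he := Real.exp_pos (-(π * z.im))
    nlinarith [mul_le_mul_of_nonneg_right h5 he.le, mul_le_mul_of_nonneg_right h3 he.le]
  · rw [th4_eq]
    exact (h1 _ hq).trans ((le_max_left _ _).trans (le_max_right _ _))
  · rw [th3_eq]
    exact (h1 _ hq').trans ((le_max_left _ _).trans (le_max_right _ _))

theorem fd_im_ge {w : ℍ} (hw : w ∈ 𝒟) : (5:ℝ) / 6 ≤ w.im := by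
  have hw3 := ModularGroup.three_le_four_mul_im_sq_of_mem_fd hw
  by_contra hlt
  push Not at hlt
  nlinarith [w.im_pos]

/-- values on the standard domain -/
theorem exists_vv_bound : ∃ C : ℝ, 1 ≤ C ∧ ∀ w : ℍ, 1 / 2 ≤ w.im →
    vv 0 w ≤ C * w.im * Real.exp (-(π * w.im)) ∧ ∀ i, vv i w ≤ C * w.im := by
  obtain ⟨C, hC, h⟩ := exists_theta_bound
  refine ⟨C, hC, fun w hw => ?_⟩
  obtain ⟨h2, h4, h3⟩ := h (w : ℂ) hw
  have him := w.im_pos
  have him' : (w : ℂ).im = w.im := rfl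
  rw [him'] at h2
  have he : Real.exp (-(π * w.im)) ≤ 1 := by
    rw [Real.exp_le_one_iff]; have := Real.pi_pos; nlinarith
  constructor
  · unfold vv
    rw [thv_zero]
    nlinarith [mul_le_mul_of_nonneg_right h2 him.le]
  · intro i
    unfold vv
    apply mul_le_mul_of_nonneg_right _ him.le
    fin_cases i
    · show ‖th2 _‖ ≤ C
      refine h2.trans ?_
      nlinarith
    · exact h4
    · exact h3

/-- growth: if all translates have height at most `K` then `|th_i| Im ≤ C K` -/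
theorem exists_vv_le : ∃ C : ℝ, 1 ≤ C ∧ ∀ (K : ℝ) (z : ℍ), (∀ g : SL(2, ℤ), (g • z).im ≤ K) →
    ∀ i, vv i z ≤ C * K := by
  obtain ⟨C, hC, h⟩ := exists_vv_bound
  refine ⟨C, hC, fun K z hK i => ?_⟩
  obtain ⟨g, hg⟩ := ModularGroup.exists_smul_mem_fd z
  obtain ⟨σ, hσ⟩ := vv_perm g⁻¹
  have h1 := hσ (g • z) i
  rw [inv_smul_smul] at h1
  rw [h1]
  refine ((h (g • z) (by linarith [fd_im_ge hg])).2 (σ i)).trans ?_
  exact mul_le_mul_of_nonneg_left (hK g) (by linarith)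

theorem im_smul_le_inv (g : SL(2, ℤ)) (z : ℍ) (hz1 : z.im ≤ 1) : (g • z).im ≤ 1 / z.im := by
  have hz := z.im_pos
  rw [im_smul_eq']
  have hden : z.im ^ 2 ≤ ((g 1 0 : ℝ) * z.re + g 1 1) ^ 2 + ((g 1 0 : ℝ) * z.im) ^ 2 := by
    by_cases hc : g 1 0 = 0
    · have hdet := g.det_coe
      rw [Matrix.det_fin_two] at hdet
      have hc2 : (g : Matrix (Fin 2) (Fin 2) ℤ) 1 0 = 0 := hc
      have h4 : g 0 0 * g 1 1 = 1 := by rw [hc2] at hdet; linarith
      have hd : g 1 1 = 1 ∨ g 1 1 = -1 :=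
        Int.isUnit_iff.mp (IsUnit.of_mul_eq_one _ (by rw [mul_comm]; exact h4))
      rw [hc]
      rcases hd with hd | hd <;> rw [hd] <;> push_cast <;> nlinarith
    · have h1 : (1:ℝ) ≤ (g 1 0 : ℝ) ^ 2 := by
        have : (1:ℤ) ≤ (g 1 0) ^ 2 := by
          have := Int.one_le_abs hc
          nlinarith [sq_abs (g 1 0)]
        exact_mod_cast this
      nlinarith [sq_nonneg ((g 1 0 : ℝ) * z.re + g 1 1), mul_le_mul_of_nonneg_right h1 (sq_nonneg z.im)]
  have hden0 : 0 < ((g 1 0 : ℝ) * z.re + g 1 1) ^ 2 + ((g 1 0 : ℝ) * z.im) ^ 2 := by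
    have : 0 < z.im ^ 2 := by positivity
    linarith
  rw [div_le_div_iff₀ hden0 hz, one_mul]
  nlinarith

/-- (2.4) -/
theorem exists_theta_growth : ∃ C : ℝ, 1 ≤ C ∧ ∀ (z : ℂ), 0 < z.im → z.im ≤ 1 →
    ∀ i, ‖thv i z‖ ≤ C / z.im ^ 2 := by
  obtain ⟨C, hC, h⟩ := exists_vv_le
  refine ⟨C, hC, fun z hz hz1 i => ?_⟩
  have h1 := h (1 / z.im) ⟨z, hz⟩ (fun g => im_smul_le_inv g ⟨z, hz⟩ hz1) i
  unfold vv at h1
  have h2 : ‖thv i z‖ * z.im ≤ C * (1 / z.im) := h1
  rw [le_div_iff₀ (by positivity)]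
  calc ‖thv i z‖ * z.im ^ 2 = (‖thv i z‖ * z.im) * z.im := by ring
    _ ≤ (C * (1 / z.im)) * z.im := mul_le_mul_of_nonneg_right h2 hz.le
    _ = C := by field_simp

/-- (2.5), upper bound -/
theorem exists_prod_le (α : Fin 3 → ℝ) (hα : ∀ i, 0 < α i) (hs : ∑ i, α i = 1) :
    ∃ C : ℝ, 0 < C ∧ ∀ z : ℍ, ∏ i, (vv i z) ^ (α i) ≤ C := by
  obtain ⟨C, hC, h⟩ := exists_vv_bound
  obtain ⟨i₀, -, hi₀⟩ := Finset.exists_min_image Finset.univ α ⟨0, Finset.mem_univ _⟩
  set m := α i₀ with hm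
  have hm0 : 0 < m := hα i₀
  refine ⟨C / (π * m), by have := Real.pi_pos; positivity, fun z => ?_⟩
  obtain ⟨g, hg⟩ := ModularGroup.exists_smul_mem_fd z
  obtain ⟨σ, hσ⟩ := vv_perm g⁻¹
  have hv : ∀ i, vv i z = vv (σ i) (g • z) := by
    intro i
    have h1 := hσ (g • z) i
    rwa [inv_smul_smul] at h1
  set w := g • z with hw
  have hwim : (5:ℝ)/6 ≤ w.im := fd_im_ge hg
  have hw0 := w.im_pos
  obtain ⟨hb0, hb⟩ := h w (by linarith)
  have hCw : 0 < C * w.im := by positivity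
  -- each factor
  have hfac : ∀ i, (vv i z) ^ (α i) ≤
      (C * w.im) ^ (α i) * (if σ i = 0 then Real.exp (-(π * w.im * m)) else 1) := by
    intro i
    rw [hv i]
    by_cases hi : σ i = 0
    · rw [if_pos hi, hi]
      calc (vv 0 w) ^ (α i) ≤ (C * w.im * Real.exp (-(π * w.im))) ^ (α i) :=
            Real.rpow_le_rpow (vv_pos _ _).le hb0 (hα i).le
        _ = (C * w.im) ^ (α i) * Real.exp (-(π * w.im)) ^ (α i) :=
            Real.mul_rpow hCw.le (Real.exp_pos _).le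
        _ ≤ (C * w.im) ^ (α i) * Real.exp (-(π * w.im * m)) := by
            apply mul_le_mul_of_nonneg_left _ (Real.rpow_nonneg hCw.le _)
            rw [← Real.exp_mul]
            apply Real.exp_le_exp.mpr
            have h1 := hi₀ i (Finset.mem_univ _)
            have h2 : 0 < π * w.im := by have := Real.pi_pos; positivity
            nlinarith
    · rw [if_neg hi, mul_one]
      exact Real.rpow_le_rpow (vv_pos _ _).le (hb _) (hα i).le
  calc ∏ i, (vv i z) ^ (α i)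
      ≤ ∏ i, ((C * w.im) ^ (α i) * (if σ i = 0 then Real.exp (-(π * w.im * m)) else 1)) :=
        Finset.prod_le_prod (fun i _ => Real.rpow_nonneg (vv_pos _ _).le _) (fun i _ => hfac i)
    _ = (∏ i, (C * w.im) ^ (α i)) * ∏ i, (if σ i = 0 then Real.exp (-(π * w.im * m)) else 1) :=
        Finset.prod_mul_distrib
    _ = (C * w.im) * Real.exp (-(π * w.im * m)) := by
        congr 1
        · rw [← Real.rpow_sum_of_pos hCw, hs, Real.rpow_one]
        · rw [Finset.prod_eq_single (σ⁻¹ 0)]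
          · rw [if_pos (by simp)]
          · intro j _ hj
            rw [if_neg]
            intro h0
            apply hj
            rw [← h0]; simp
          · intro h0; exact absurd (Finset.mem_univ _) h0
    _ ≤ C / (π * m) := by
        have hpi := Real.pi_pos
        have h1 : π * w.im * m ≤ Real.exp (π * w.im * m) := by
          linarith [Real.add_one_le_exp (π * w.im * m)]
        rw [Real.exp_neg, ← div_eq_mul_inv, div_le_div_iff₀ (Real.exp_pos _) (by positivity)]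
        have hC0 : 0 < C := by linarith
        nlinarith [mul_le_mul_of_nonneg_left h1 hC0.le]

theorem continuous_vv (i : Fin 3) : Continuous (vv i) := by
  unfold vv
  apply Continuous.mul _ UpperHalfPlane.continuous_im
  apply Continuous.norm
  rw [continuous_iff_continuousAt]
  intro z
  have hz : 0 < (z : ℂ).im := z.im_pos
  have h1 : ContinuousAt (thv i) (z : ℂ) := by
    fin_cases i
    · exact (differentiableAt_th2 hz).continuousAt
    · exact (differentiableAt_th4 hz).continuousAt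
    · exact (differentiableAt_th3 hz).continuousAt
  exact ContinuousAt.comp (f := fun z : ℍ => (z : ℂ)) h1 (UpperHalfPlane.continuous_coe.continuousAt)

/-- (2.5), lower bound on the thick part -/
theorem exists_vv_ge (K : ℝ) : ∃ c : ℝ, 0 < c ∧ ∀ z : ℍ, (∀ g : SL(2, ℤ), (g • z).im ≤ K) →
    ∀ i, c ≤ vv i z := by
  have hcomp := ModularGroup.isCompact_truncatedFundamentalDomain K
  have h1 : ∀ i : Fin 3, ∃ c : ℝ, 0 < c ∧ ∀ w ∈ ModularGroup.truncatedFundamentalDomain K,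
      c ≤ vv i w := by
    intro i
    by_cases hne : (ModularGroup.truncatedFundamentalDomain K).Nonempty
    · obtain ⟨w₀, -, hw₀⟩ := hcomp.exists_isMinOn hne (continuous_vv i).continuousOn
      exact ⟨vv i w₀, vv_pos _ _, fun w hw => hw₀ hw⟩
    · refine ⟨1, one_pos, fun w hw => absurd ⟨w, hw⟩ hne⟩
  choose c hc0 hc using h1
  refine ⟨min (c 0) (min (c 1) (c 2)), lt_min (hc0 0) (lt_min (hc0 1) (hc0 2)), fun z hz i => ?_⟩
  obtain ⟨g, hg⟩ := ModularGroup.exists_smul_mem_fd z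
  obtain ⟨σ, hσ⟩ := vv_perm g⁻¹
  have h1 := hσ (g • z) i
  rw [inv_smul_smul] at h1
  rw [h1]
  refine le_trans ?_ (hc (σ i) (g • z) ⟨hg, hz g⟩)
  have : ∀ j : Fin 3, min (c 0) (min (c 1) (c 2)) ≤ c j := by
    intro j
    fin_cases j
    · exact min_le_left _ _
    · exact (min_le_right _ _).trans (min_le_left _ _)
    · exact (min_le_right _ _).trans (min_le_right _ _)
  exact this _

theorem exists_prod_ge (α : Fin 3 → ℝ) (hα : ∀ i, 0 < α i) (hs : ∑ i, α i = 1) (K : ℝ) :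
    ∃ c : ℝ, 0 < c ∧ ∀ z : ℍ, (∀ g : SL(2, ℤ), (g • z).im ≤ K) →
      c ≤ ∏ i, (vv i z) ^ (α i) := by
  obtain ⟨c, hc0, hc⟩ := exists_vv_ge K
  refine ⟨c, hc0, fun z hz => ?_⟩
  calc c = ∏ i, c ^ (α i) := by rw [← Real.rpow_sum_of_pos hc0, hs, Real.rpow_one]
    _ ≤ ∏ i, (vv i z) ^ (α i) :=
        Finset.prod_le_prod (fun i _ => Real.rpow_nonneg hc0.le _)
          (fun i _ => Real.rpow_le_rpow hc0.le (hc z hz i) (hα i).le)

end GP
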