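import Mathlib

/-!
Jensen inequality on a circle and on a horocycle (for the module EXT).
-/

open MeasureTheory Metric Set Real intervalIntegral

namespace GP

/-- Jensen's inequality with an integrable majorant (zeros allowed). -/
theorem jensen_le {r : ℝ} (hr : 0 < r) {g : ℂ → ℂ}
    (hg : AnalyticOnNhd ℂ g (closedBall 0 r)) (h0 : g 0 ≠ 0) {u : ℝ → ℝ}
    (hu : IntervalIntegrable u volume 0 (2 * π))
    (hle : ∀ θ : ℝ, 0 ≤ θ → θ ≤ 2 * π → ‖g (circleMap 0 r θ)‖ ≤ Real.exp (u θ)) :
    Real.log ‖g 0‖ ≤ (2 * π)⁻¹ * ∫ θ in (0:ℝ)..(2 * π), u θ := by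
  have hr' : |r| = r := abs_of_pos hr
  have hgR : AnalyticOnNhd ℂ g (closedBall 0 |r|) := by rwa [hr']
  have jensen := hgR.circleAverage_log_norm hr.ne' h0
  have hnn : 0 ≤ ∑ᶠ w, MeromorphicOn.divisor g (closedBall 0 |r|) w * Real.log (r * ‖(0:ℂ) - w‖⁻¹) := by
    apply finsum_nonneg
    intro w
    by_cases hw : w ∈ closedBall (0:ℂ) |r|
    · apply mul_nonneg
      · exact_mod_cast MeromorphicOn.AnalyticOnNhd.divisor_nonneg hgR w
      · by_cases hw0 : w = 0
        · simp [hw0]
        · apply Real.log_nonneg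
          rw [hr'] at hw
          have h1 : 0 < ‖w‖ := norm_pos_iff.mpr hw0
          have h2 : ‖w‖ ≤ r := by simpa using hw
          rw [zero_sub, norm_neg, ← div_eq_mul_inv, le_div_iff₀ h1]
          linarith
    · simp [hw]
  have h1 : Real.log ‖g 0‖ ≤ circleAverage (Real.log ‖g ·‖) 0 r := by linarith
  refine h1.trans ?_
  rw [circleAverage_def, smul_eq_mul]
  apply mul_le_mul_of_nonneg_left _ (by positivity)
  have hint : IntervalIntegrable (fun θ => Real.log ‖g (circleMap 0 r θ)‖) volume 0 (2 * π) := by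
    have := (hgR.mono sphere_subset_closedBall).meromorphicOn.circleIntegrable_log_norm
    exact this
  -- zeros on the circle form a countable set
  have hzero : (closedBall (0:ℂ) r ∩ g ⁻¹' {0}).Finite := by
    by_contra hinf
    have hinf' : (closedBall (0:ℂ) r ∩ g ⁻¹' {0}).Infinite := hinf
    obtain ⟨z, hz, hacc⟩ := hinf'.exists_accPt_of_subset_isCompact
      (isCompact_closedBall (0:ℂ) r) inter_subset_left
    have hfreq : ∃ᶠ w in nhdsWithin z {z}ᶜ, g w = 0 := by
      rw [accPt_iff_frequently_nhdsNE] at hacc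
      exact hacc.mono (fun w hw => hw.2)
    have heq : EqOn g 0 (closedBall 0 r) :=
      hg.eqOn_zero_of_preconnected_of_frequently_eq_zero
        ((convex_closedBall _ _).isPreconnected) hz hfreq
    exact h0 (heq (by simp [hr.le]))
  have hcount : (circleMap 0 r ⁻¹' (closedBall (0:ℂ) r ∩ g ⁻¹' {0})).Countable :=
    hzero.countable.preimage_circleMap 0 hr.ne'
  have hnull := hcount.measure_zero volume
  apply intervalIntegral.integral_mono_ae_restrict (by positivity) hint hu
  have hae : ∀ᵐ θ ∂volume, θ ∉ (circleMap 0 r ⁻¹' (closedBall (0:ℂ) r ∩ g ⁻¹' {0})) :=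
    measure_eq_zero_iff_ae_notMem.mp hnull
  filter_upwards [ae_restrict_of_ae hae, ae_restrict_mem measurableSet_Icc] with θ hθ hmem
  have hne : g (circleMap 0 r θ) ≠ 0 := by
    intro h
    apply hθ
    refine ⟨?_, h⟩
    simp [hr'.le]
  have hpos : 0 < ‖g (circleMap 0 r θ)‖ := norm_pos_iff.mpr hne
  calc Real.log ‖g (circleMap 0 r θ)‖ ≤ Real.log (Real.exp (u θ)) :=
        Real.log_le_log hpos (hle θ hmem.1 hmem.2)
    _ = u θ := Real.log_exp _

/-- the local parameter at infinity `w = exp(pi i tau / p)` -/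
noncomputable def wpar (p : ℕ) (x y : ℝ) : ℂ :=
  Complex.exp (Real.pi * Complex.I * ((x : ℂ) + y * Complex.I) / p)

theorem wpar_eq_circleMap {p : ℕ} (hp : 0 < p) (x y : ℝ) :
    wpar p x y = circleMap 0 (Real.exp (-(π * y / p))) (π * x / p) := by
  have hp' : (p : ℂ) ≠ 0 := by exact_mod_cast hp.ne'
  unfold wpar circleMap
  rw [zero_add, Complex.ofReal_exp, ← Complex.exp_add]
  congr 1
  push_cast
  field_simp
  ring_nf
  rw [Complex.I_sq]
  ring

theorem jensen_horo {p : ℕ} (hp : 0 < p) {y : ℝ} (hy : 0 < y) {g : ℂ → ℂ}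
    (hg : DifferentiableOn ℂ g (ball 0 1)) (h0 : g 0 ≠ 0) (M : ℕ) {u : ℝ → ℝ}
    (hu : IntervalIntegrable u volume 0 (2 * p))
    (hle : ∀ x : ℝ, 0 ≤ x → x ≤ 2 * p → ‖(wpar p x y) ^ M * g (wpar p x y)‖ ≤ Real.exp (u x)) :
    Real.log ‖g 0‖ - π * y / p * M ≤ (2 * p : ℝ)⁻¹ * ∫ x in (0:ℝ)..(2 * p), u x := by
  have hp0 : (0:ℝ) < p := by exact_mod_cast hp
  have hpi := Real.pi_pos
  set r : ℝ := Real.exp (-(π * y / p)) with hr
  have hr0 : 0 < r := Real.exp_pos _
  have hr1 : r < 1 := by
    rw [hr, Real.exp_lt_one_iff]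
    have : 0 < π * y / p := by positivity
    linarith
  have hgA : AnalyticOnNhd ℂ g (closedBall 0 r) := by
    have h1 : AnalyticOnNhd ℂ g (ball 0 1) := hg.analyticOnNhd isOpen_ball
    exact h1.mono (closedBall_subset_ball hr1)
  have hscale : ∫ θ in (0:ℝ)..(2 * π), (u (p / π * θ) + π * y / p * M)
      = π / p * (∫ x in (0:ℝ)..(2 * p), (u x + π * y / p * M)) := by
    have h1 := intervalIntegral.mul_integral_comp_mul_left (f := fun x => u x + π * y / p * M)
      (a := 0) (b := 2 * π) (c := p / π)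
    have h2 : (p:ℝ) / π * 0 = 0 := by ring
    have h3 : (p:ℝ) / π * (2 * π) = 2 * p := by field_simp
    rw [h2, h3] at h1
    rw [← h1]
    field_simp
  have huI : IntervalIntegrable (fun θ => u (p / π * θ) + π * y / p * M) volume 0 (2 * π) := by
    apply IntervalIntegrable.add _ intervalIntegrable_const
    have h1 := hu.comp_mul_left (c := (p:ℝ) / π)
    have h2 : (0:ℝ) / ((p:ℝ) / π) = 0 := by simp
    have h3 : (2 * (p:ℝ)) / ((p:ℝ) / π) = 2 * π := by field_simp
    rw [h2, h3] at h1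
    exact h1
  have key := jensen_le hr0 hgA h0 huI (by
    intro θ hθ0 hθ1
    have hx0 : 0 ≤ (p:ℝ) / π * θ := by positivity
    have hx1 : (p:ℝ) / π * θ ≤ 2 * p := by
      rw [div_mul_eq_mul_div, div_le_iff₀ hpi]
      nlinarith
    have h1 := hle _ hx0 hx1
    have h2 : wpar p ((p:ℝ) / π * θ) y = circleMap 0 r θ := by
      rw [wpar_eq_circleMap hp]
      congr 1
      field_simp
    rw [h2, norm_mul, norm_pow, norm_circleMap_zero, abs_of_pos hr0] at h1
    rw [Real.exp_add]
    have h3 : Real.exp (π * y / p * M) = (r ^ M)⁻¹ := by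
      rw [hr, ← Real.exp_nat_mul, ← Real.exp_neg]
      congr 1
      ring
    rw [h3, ← div_eq_mul_inv, le_div_iff₀ (by positivity)]
    linarith [mul_comm (r ^ M) ‖g (circleMap 0 r θ)‖])
  rw [hscale, intervalIntegral.integral_add hu intervalIntegrable_const,
    intervalIntegral.integral_const, smul_eq_mul] at key
  have h5 : (2 * π)⁻¹ * (π / p * ((∫ x in (0:ℝ)..(2 * p), u x) + (2 * ↑p - 0) * (π * y / ↑p * ↑M)))
      = (2 * p : ℝ)⁻¹ * (∫ x in (0:ℝ)..(2 * p), u x) + π * y / p * M := by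
    field_simp
    ring
  rw [h5] at key
  linarith

/-- Jensen on the horocycle with gains on finitely many disjoint intervals. -/
theorem jensen_horo_gain {p : ℕ} (hp : 0 < p) {y : ℝ} (hy : 0 < y) {g : ℂ → ℂ}
    (hg : DifferentiableOn ℂ g (ball 0 1)) (h0 : g 0 ≠ 0) (M : ℕ) {ι : Type*} (I : Finset ι)
    (l r G : ι → ℝ) (hl : ∀ i ∈ I, 0 ≤ l i) (hlr : ∀ i ∈ I, l i ≤ r i)
    (hr : ∀ i ∈ I, r i ≤ 2 * p)
    (hdisj : ∀ i ∈ I, ∀ j ∈ I, i ≠ j → Disjoint (Ioc (l i) (r i)) (Ioc (l j) (r j)))
    (U : ℝ)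
    (hU : ∀ x : ℝ, 0 ≤ x → x ≤ 2 * p → ‖(wpar p x y) ^ M * g (wpar p x y)‖ ≤ Real.exp U)
    (hG : ∀ i ∈ I, ∀ x ∈ Ioc (l i) (r i),
      ‖(wpar p x y) ^ M * g (wpar p x y)‖ ≤ Real.exp (U - G i)) :
    Real.log ‖g 0‖ - π * y / p * M ≤ U - (2 * p : ℝ)⁻¹ * ∑ i ∈ I, G i * (r i - l i) := by
  classical
  have hp0 : (0:ℝ) < p := by exact_mod_cast hp
  set u : ℝ → ℝ := fun x => U - ∑ i ∈ I, (Ioc (l i) (r i)).indicator (fun _ => G i) x with hudef
  have hind : ∀ i ∈ I, IntervalIntegrable ((Ioc (l i) (r i)).indicator (fun _ => G i))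
      volume 0 (2 * p) := by
    intro i hi
    rw [intervalIntegrable_iff_integrableOn_Ioc_of_le (by positivity)]
    apply Integrable.integrableOn
    exact (integrable_indicator_iff measurableSet_Ioc).mpr (integrableOn_const (by simp))
  have hsumI : IntervalIntegrable
      (fun x => ∑ i ∈ I, (Ioc (l i) (r i)).indicator (fun _ => G i) x) volume 0 (2 * p) := by
    have e : (fun x => ∑ i ∈ I, (Ioc (l i) (r i)).indicator (fun _ => G i) x)
        = ∑ i ∈ I, (Ioc (l i) (r i)).indicator (fun _ => G i) := by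
      funext x
      simp
    rw [e]
    exact IntervalIntegrable.sum I hind
  have huI : IntervalIntegrable u volume 0 (2 * p) := intervalIntegrable_const.sub hsumI
  have key := jensen_horo hp hy hg h0 M huI (by
    intro x hx0 hx1
    by_cases hx : ∃ i ∈ I, x ∈ Ioc (l i) (r i)
    · obtain ⟨i, hi, hxi⟩ := hx
      have h1 : u x = U - G i := by
        simp only [hudef]
        congr 1
        rw [Finset.sum_eq_single i]
        · rw [indicator_of_mem hxi]
        · intro j hj hji
          rw [indicator_of_notMem]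
          intro hxj
          exact (Set.disjoint_left.mp (hdisj i hi j hj (Ne.symm hji))) hxi hxj
        · intro h; exact absurd hi h
      rw [h1]
      exact hG i hi x hxi
    · push Not at hx
      have h1 : u x = U := by
        simp only [hudef]
        rw [Finset.sum_eq_zero, sub_zero]
        intro i hi
        exact indicator_of_notMem (hx i hi) _
      rw [h1]
      exact hU x hx0 hx1)
  refine key.trans (le_of_eq ?_)
  have hint : ∫ x in (0:ℝ)..(2 * p), u x = 2 * p * U - ∑ i ∈ I, G i * (r i - l i) := by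
    simp only [hudef]
    rw [intervalIntegral.integral_sub intervalIntegrable_const hsumI,
      intervalIntegral.integral_const, smul_eq_mul, sub_zero,
      intervalIntegral.integral_finsetSum hind]
    congr 1
    apply Finset.sum_congr rfl
    intro i hi
    rw [intervalIntegral.integral_of_le (by positivity), MeasureTheory.integral_indicator measurableSet_Ioc,
      Measure.restrict_restrict measurableSet_Ioc]
    have h1 : Ioc (l i) (r i) ∩ Ioc 0 (2 * (p:ℝ)) = Ioc (l i) (r i) := by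
      apply inter_eq_left.mpr
      exact Ioc_subset_Ioc (hl i hi) (hr i hi)
    rw [h1, setIntegral_const, smul_eq_mul, Measure.real, Real.volume_Ioc,
      ENNReal.toReal_ofReal (by linarith [hlr i hi])]
    ring
  rw [hint]
  field_simp

end GP
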