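import Mathlib

/-!
INT: N-th roots of integral power series with constant term 1.
-/

open PowerSeries

namespace GP

/-- expansion of a power to second order -/
theorem pow_add_exp {R : Type*} [CommRing R] (x y : R) (n : ℕ) :
    ∃ k : R, (x + y) ^ n = x ^ n + n * x ^ (n - 1) * y + k * y ^ 2 :=
  ⟨(Polynomial.powAddExpansion x y n).1, (Polynomial.powAddExpansion x y n).2⟩

/-- key step: a root `B` of an integral series `1 + N^2 (...)` has coefficients in `N Z`. -/
theorem root_int_aux {K : Type*} [Field K] [CharZero K] {N : ℕ} (hN : 0 < N)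
    (Z : PowerSeries ℤ) (B : PowerSeries K)
    (hB0 : constantCoeff B = 1)
    (hB : B ^ N = map (Int.castRingHom K) (1 + (N : PowerSeries ℤ) ^ 2 * Z)) :
    ∀ k : ℕ, 0 < k → ∃ n : ℤ, coeff k B = N * n := by
  have hNK : (N : K) ≠ 0 := by exact_mod_cast hN.ne'
  intro k
  induction k using Nat.strong_induction_on with
  | _ k ih =>
    intro hk
    have ih' : ∀ i : ℕ, ∃ n : ℤ, (0 < i → i < k → coeff i B = N * n) := by
      intro i
      by_cases h : 0 < i ∧ i < k
      · obtain ⟨n, hn⟩ := ih i h.2 h.1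
        exact ⟨n, fun _ _ => hn⟩
      · exact ⟨0, fun h1 h2 => absurd ⟨h1, h2⟩ h⟩
    choose c hc using ih'
    set Q : PowerSeries ℤ := PowerSeries.mk (fun i => if 0 < i ∧ i < k then c i else 0) with hQ
    set P : PowerSeries K := map (Int.castRingHom K) (1 + (N : PowerSeries ℤ) * Q) with hP
    have hQ0 : constantCoeff Q = 0 := by
      rw [← coeff_zero_eq_constantCoeff_apply, hQ, coeff_mk]; simp
    have hP0 : constantCoeff P = 1 := by
      rw [hP, ← coeff_zero_eq_constantCoeff_apply, coeff_map, coeff_zero_eq_constantCoeff_apply]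
      simp [hQ0]
    have hPc : ∀ i, coeff i P = if i = 0 then 1 else if i < k then coeff i B else 0 := by
      intro i
      rw [hP, coeff_map, map_add]
      have hNQ : coeff i ((N : PowerSeries ℤ) * Q) = N * coeff i Q := by
        have : (N : PowerSeries ℤ) = C (N : ℤ) := by simp
        rw [this, coeff_C_mul]
      rw [hNQ]
      by_cases hi : i = 0
      · subst hi
        rw [if_pos rfl, coeff_zero_eq_constantCoeff_apply, coeff_zero_eq_constantCoeff_apply, hQ0]
        simp
      · rw [if_neg hi, coeff_one, if_neg hi, hQ, coeff_mk]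
        by_cases hik : i < k
        · rw [if_pos hik, if_pos ⟨Nat.pos_of_ne_zero hi, hik⟩, hc i (Nat.pos_of_ne_zero hi) hik]
          simp
        · rw [if_neg hik, if_neg (fun h => hik h.2)]
          simp
    have hD : (X : PowerSeries K) ^ k ∣ B - P := by
      rw [X_pow_dvd_iff]
      intro m hm
      rw [map_sub, hPc]
      by_cases hm0 : m = 0
      · subst hm0
        rw [if_pos rfl, coeff_zero_eq_constantCoeff_apply, hB0, sub_self]
      · rw [if_neg hm0, if_pos hm, sub_self]
    obtain ⟨E, hE⟩ := hD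
    have hE0 : constantCoeff E = coeff k B := by
      have h1 : coeff k (B - P) = coeff k (X ^ k * E) := by rw [hE]
      rw [map_sub, hPc, if_neg hk.ne', if_neg (lt_irrefl k), sub_zero] at h1
      rw [h1]
      have := coeff_X_pow_mul E k 0
      rw [zero_add] at this
      rw [this, coeff_zero_eq_constantCoeff_apply]
    have hBP : B = P + X ^ k * E := by rw [← hE]; ring
    obtain ⟨R₁, hR₁⟩ := pow_add_exp P (X ^ k * E) N
    obtain ⟨R₂, hR₂⟩ := pow_add_exp (1 : PowerSeries ℤ) ((N : PowerSeries ℤ) * Q) N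
    rw [one_pow, one_pow, mul_one] at hR₂
    -- coefficient k
    have h1 : coeff k (B ^ N) = coeff k (P ^ N) + (N : K) * coeff k B := by
      have hBN : B ^ N = (P + X ^ k * E) ^ N := by rw [← hBP]
      rw [hBN, hR₁, map_add, map_add]
      have e1 : coeff k ((N : PowerSeries K) * P ^ (N - 1) * (X ^ k * E)) = (N : K) * coeff k B := by
        have e2 : (N : PowerSeries K) * P ^ (N - 1) * (X ^ k * E)
            = X ^ k * ((N : PowerSeries K) * P ^ (N - 1) * E) := by ring
        rw [e2]
        have e3 := coeff_X_pow_mul ((N : PowerSeries K) * P ^ (N - 1) * E) k 0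
        rw [zero_add] at e3
        rw [e3, coeff_zero_eq_constantCoeff_apply, map_mul, map_mul, map_pow, hP0, one_pow, mul_one,
          hE0]
        simp
      have e4 : coeff k (R₁ * (X ^ k * E) ^ 2) = 0 := by
        have e5 : R₁ * (X ^ k * E) ^ 2 = X ^ (k + 1) * (X ^ (k - 1) * (R₁ * E ^ 2)) := by
          have e6 : (X : PowerSeries K) ^ (k + 1) * X ^ (k - 1) = X ^ k * X ^ k := by
            rw [← pow_add, ← pow_add]; congr 1; omega
          calc R₁ * (X ^ k * E) ^ 2 = (X ^ k * X ^ k) * (R₁ * E ^ 2) := by ring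
            _ = (X ^ (k + 1) * X ^ (k - 1)) * (R₁ * E ^ 2) := by rw [e6]
            _ = _ := by ring
        rw [e5]
        exact X_pow_dvd_iff.mp (Dvd.intro _ rfl) k (Nat.lt_succ_self k)
      rw [e1, e4, add_zero]
    have h2 : coeff k (P ^ N) = (((N : ℤ) ^ 2 * coeff k (Q + R₂ * Q ^ 2) : ℤ) : K) := by
      have e1 : P ^ N = map (Int.castRingHom K) (1 + (N : PowerSeries ℤ) ^ 2 * (Q + R₂ * Q ^ 2)) := by
        rw [hP, ← map_pow, hR₂]
        congr 1
        ring
      rw [e1, coeff_map, map_add, coeff_one, if_neg hk.ne', zero_add]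
      have : (N : PowerSeries ℤ) ^ 2 = C ((N : ℤ) ^ 2) := by simp
      rw [this, coeff_C_mul]
      simp
    have h3 : coeff k (B ^ N) = (((N : ℤ) ^ 2 * coeff k Z : ℤ) : K) := by
      rw [hB, coeff_map, map_add, coeff_one, if_neg hk.ne', zero_add]
      have : (N : PowerSeries ℤ) ^ 2 = C ((N : ℤ) ^ 2) := by simp
      rw [this, coeff_C_mul]
      simp
    rw [h2, h3] at h1
    refine ⟨coeff k Z - coeff k (Q + R₂ * Q ^ 2), ?_⟩
    have h4 : (N : K) * coeff k B = N * (N * ((coeff k Z - coeff k (Q + R₂ * Q ^ 2) : ℤ) : K)) := by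
      push_cast at h1 ⊢
      linear_combination -h1
    exact mul_left_cancel₀ hNK h4

/-- an `N`-th root of an integral power series with constant term 1 has denominators dividing
`N^(2k)` -/
theorem root_int {K : Type*} [Field K] [CharZero K] {N : ℕ} (hN : 0 < N)
    (A : PowerSeries ℤ) (hA0 : constantCoeff A = 1) (B : PowerSeries K)
    (hB0 : constantCoeff B = 1) (hB : B ^ N = map (Int.castRingHom K) A) (k : ℕ) :
    ∃ n : ℤ, (N : K) ^ (2 * k) * coeff k B = n := by
  -- rescale
  set B' : PowerSeries K := rescale ((N : K) ^ 2) B with hB'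
  have hA' : ∃ Z : PowerSeries ℤ,
      rescale ((N : ℤ) ^ 2) A = 1 + (N : PowerSeries ℤ) ^ 2 * Z := by
    refine ⟨PowerSeries.mk (fun i => if i = 0 then 0 else ((N : ℤ) ^ 2) ^ (i - 1) * coeff i A), ?_⟩
    · ext i
      have : (N : PowerSeries ℤ) ^ 2 = C ((N : ℤ) ^ 2) := by simp
      rw [this, map_add, coeff_rescale, coeff_C_mul, coeff_mk, coeff_one]
      by_cases hi : i = 0
      · subst hi
        simp [hA0]
      · rw [if_neg hi, if_neg hi, zero_add, ← mul_assoc, ← pow_succ']
        congr 2
        omega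
  obtain ⟨Z, hZ⟩ := hA'
  have hB'0 : constantCoeff B' = 1 := by
    rw [← coeff_zero_eq_constantCoeff_apply, hB', coeff_rescale, pow_zero, one_mul,
      coeff_zero_eq_constantCoeff_apply, hB0]
  have hB'N : B' ^ N = map (Int.castRingHom K) (1 + (N : PowerSeries ℤ) ^ 2 * Z) := by
    rw [hB', ← map_pow, hB, ← hZ]
    ext i
    rw [coeff_rescale, coeff_map, coeff_map, coeff_rescale]
    simp
  have hcoef : coeff k B' = (N : K) ^ (2 * k) * coeff k B := by
    rw [hB', coeff_rescale, ← pow_mul]
  rw [← hcoef]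
  rcases Nat.eq_zero_or_pos k with rfl | hk
  · exact ⟨1, by rw [coeff_zero_eq_constantCoeff_apply, hB'0]; simp⟩
  · obtain ⟨n, hn⟩ := root_int_aux hN Z B' hB'0 hB'N k hk
    exact ⟨N * n, by rw [hn]; push_cast; ring⟩

end GP
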