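import Mathlib
import Pool.Agent.GP.Mod
import Pool.Agent.Helper32.GP.Int

/-!
Taylor series on the unit disc; integrality of the Taylor coefficients of the theta factors and of
their N-th roots.
-/

open PowerSeries Filter Topology Metric

namespace GP

/-- `F` is the power series of `f` on the unit disc -/
def IS (F : PowerSeries ℂ) (f : ℂ → ℂ) : Prop :=
  ∀ w : ℂ, ‖w‖ < 1 → HasSum (fun n => coeff n F * w ^ n) (f w)

/-- Taylor series at 0 -/
noncomputable def tay (f : ℂ → ℂ) : PowerSeries ℂ :=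
  PowerSeries.mk (fun n => iteratedDeriv n f 0 / (n.factorial : ℂ))

theorem IS_tay {f : ℂ → ℂ} (hf : DifferentiableOn ℂ f (ball 0 1)) : IS (tay f) f := by
  intro w hw
  have h := Complex.hasSum_taylorSeries_on_ball hf (z := w) (by simpa using hw)
  have e : (fun n => coeff n (tay f) * w ^ n)
      = fun n : ℕ => ((n.factorial : ℕ) : ℂ)⁻¹ • (w - 0) ^ n • iteratedDeriv n f 0 := by
    funext n
    simp only [tay, coeff_mk, smul_eq_mul, sub_zero]
    ring
  rw [e]
  exact h

theorem IS.hasFPS {F : PowerSeries ℂ} {f : ℂ → ℂ} (h : IS F f) :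
    HasFPowerSeriesOnBall f (FormalMultilinearSeries.ofScalars ℂ (fun n => coeff n F)) 0 1 := by
  refine ⟨?_, one_pos, ?_⟩
  · apply ENNReal.le_of_forall_nnreal_lt
    intro r hr
    apply FormalMultilinearSeries.le_radius_of_summable
    have hr1 : (r : ℝ) < 1 := by
      have : r < 1 := by exact_mod_cast hr
      exact_mod_cast this
    have h1 := (h (r : ℂ) (by simpa using hr1)).summable.norm
    refine h1.congr (fun n => ?_)
    rw [norm_mul, norm_pow, FormalMultilinearSeries.ofScalars_norm]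
    simp
  · intro y hy
    have hy1 : ‖y‖ < 1 := by
      rw [Metric.mem_eball, edist_zero_right] at hy
      have : (‖y‖ₑ) < 1 := hy
      rw [← ofReal_norm] at this
      have h2 := ENNReal.ofReal_lt_one.mp this
      exact h2
    have h1 := h y hy1
    rw [zero_add]
    have e2 : (fun n => (FormalMultilinearSeries.ofScalars ℂ (fun n => coeff n F) n) (fun _ => y))
        = fun n => coeff n F * y ^ n := by
      funext n
      rw [FormalMultilinearSeries.ofScalars_apply_eq]
      simp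
    rw [e2]
    exact h1

theorem IS.differentiableOn {F : PowerSeries ℂ} {f : ℂ → ℂ} (h : IS F f) :
    DifferentiableOn ℂ f (ball 0 1) := by
  have := h.hasFPS.differentiableOn
  refine this.mono ?_
  intro x hx
  rw [Metric.mem_eball, edist_zero_right, ← ofReal_norm]
  rw [mem_ball_zero_iff] at hx
  exact ENNReal.ofReal_lt_one.mpr hx

theorem IS.unique {F G : PowerSeries ℂ} {f : ℂ → ℂ} (h : IS F f) (h' : IS G f) : F = G := by
  have h1 := h.hasFPS.hasFPowerSeriesAt.eq_formalMultilinearSeries h'.hasFPS.hasFPowerSeriesAt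
  ext n
  have h2 := congrArg (fun p => p.coeff n) h1
  simpa [FormalMultilinearSeries.coeff_ofScalars] using h2

theorem IS.congr {F : PowerSeries ℂ} {f g : ℂ → ℂ} (h : IS F f) (e : ∀ w, ‖w‖ < 1 → f w = g w) :
    IS F g := by
  intro w hw
  rw [← e w hw]; exact h w hw

theorem IS_one : IS 1 (fun _ => 1) := by
  intro w _
  have := hasSum_single (f := fun n => coeff n (1 : PowerSeries ℂ) * w ^ n) 0 (by
    intro n hn
    rw [coeff_one, if_neg hn, zero_mul])
  simpa using this

theorem IS.mul {F G : PowerSeries ℂ} {f g : ℂ → ℂ} (hF : IS F f) (hG : IS G g) :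
    IS (F * G) (fun w => f w * g w) := by
  intro w hw
  have h1 := hF w hw
  have h2 := hG w hw
  have h3 := (summable_norm_sum_mul_antidiagonal_of_summable_norm h1.summable.norm
    h2.summable.norm).of_norm.hasSum
  rw [← tsum_mul_tsum_eq_tsum_sum_antidiagonal_of_summable_norm h1.summable.norm
    h2.summable.norm, h1.tsum_eq, h2.tsum_eq] at h3
  have e : (fun n => coeff n (F * G) * w ^ n) = fun n => ∑ kl ∈ Finset.HasAntidiagonal.antidiagonal n,
      (coeff kl.1 F * w ^ kl.1) * (coeff kl.2 G * w ^ kl.2) := by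
    funext n
    rw [coeff_mul, Finset.sum_mul]
    apply Finset.sum_congr rfl
    intro x hx
    rw [Finset.HasAntidiagonal.mem_antidiagonal] at hx
    rw [← hx, pow_add]
    ring
  rw [e]
  exact h3

theorem IS.pow {F : PowerSeries ℂ} {f : ℂ → ℂ} (hF : IS F f) (n : ℕ) :
    IS (F ^ n) (fun w => f w ^ n) := by
  induction n with
  | zero => simpa using IS_one
  | succ n ih => simpa [pow_succ] using ih.mul hF

/-- integral power series with constant term 1 -/
def IntS (f : ℂ → ℂ) : Prop :=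
  ∃ A : PowerSeries ℤ, constantCoeff A = 1 ∧ IS (map (Int.castRingHom ℂ) A) f

theorem IntS.congr {f g : ℂ → ℂ} (h : IntS f) (e : ∀ w, ‖w‖ < 1 → f w = g w) : IntS g := by
  obtain ⟨A, h1, h2⟩ := h
  exact ⟨A, h1, h2.congr e⟩

theorem IntS.mul {f g : ℂ → ℂ} (hf : IntS f) (hg : IntS g) : IntS (fun w => f w * g w) := by
  obtain ⟨A, h1, h2⟩ := hf
  obtain ⟨B, h3, h4⟩ := hg
  refine ⟨A * B, by rw [map_mul, h1, h3, mul_one], ?_⟩
  rw [map_mul]; exact h2.mul h4

theorem IntS.pow {f : ℂ → ℂ} (hf : IntS f) (n : ℕ) : IntS (fun w => f w ^ n) := by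
  obtain ⟨A, h1, h2⟩ := hf
  refine ⟨A ^ n, by rw [map_pow, h1, one_pow], ?_⟩
  rw [map_pow]; exact h2.pow n

theorem IS.const {F : PowerSeries ℂ} {f : ℂ → ℂ} (hF : IS F f) : constantCoeff F = f 0 := by
  have h1 := hF 0 (by simp)
  have h2 := hasSum_single (f := fun n => coeff n F * (0:ℂ) ^ n) 0 (by
    intro n hn
    rw [zero_pow hn, mul_zero])
  have h3 := h1.unique h2
  rw [h3]; simp

theorem IntS.one_at {f : ℂ → ℂ} (hf : IntS f) : f 0 = 1 := by
  obtain ⟨A, h1, h2⟩ := hf
  rw [← h2.const, ← coeff_zero_eq_constantCoeff_apply, coeff_map, coeff_zero_eq_constantCoeff_apply,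
    h1]
  simp

theorem IntS.inv {f : ℂ → ℂ} (hf : IntS f) (hne : ∀ w, ‖w‖ < 1 → f w ≠ 0) :
    IntS (fun w => (f w)⁻¹) := by
  obtain ⟨A, h1, h2⟩ := hf
  have hd : DifferentiableOn ℂ (fun w => (f w)⁻¹) (ball 0 1) :=
    h2.differentiableOn.inv (fun w hw => hne w (by simpa using hw))
  have h3 := IS_tay hd
  have h4 := h2.mul h3
  have h5 : IS 1 (fun w => f w * (f w)⁻¹) :=
    IS_one.congr (fun w hw => (mul_inv_cancel₀ (hne w hw)).symm)
  have h6 := h4.unique h5
  have hA : A * invOfUnit A 1 = 1 := mul_invOfUnit A 1 (by simpa using h1)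
  have h7 : map (Int.castRingHom ℂ) A * map (Int.castRingHom ℂ) (invOfUnit A 1) = 1 := by
    rw [← map_mul, hA, map_one]
  have h8 : tay (fun w => (f w)⁻¹) = map (Int.castRingHom ℂ) (invOfUnit A 1) := by
    calc tay (fun w => (f w)⁻¹)
        = (map (Int.castRingHom ℂ) A * map (Int.castRingHom ℂ) (invOfUnit A 1))
          * tay (fun w => (f w)⁻¹) := by rw [h7, one_mul]
      _ = map (Int.castRingHom ℂ) (invOfUnit A 1)
          * (map (Int.castRingHom ℂ) A * tay (fun w => (f w)⁻¹)) := by ring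
      _ = _ := by rw [h6, mul_one]
  refine ⟨invOfUnit A 1, ?_, by rw [← h8]; exact h3⟩
  simp

theorem IntS.neg_comp {f : ℂ → ℂ} (hf : IntS f) : IntS (fun w => f (-w)) := by
  obtain ⟨A, h1, h2⟩ := hf
  refine ⟨rescale (-1) A, ?_, ?_⟩
  · rw [← coeff_zero_eq_constantCoeff_apply, coeff_rescale]; simpa using h1
  · intro w hw
    have h3 := h2 (-w) (by simpa using hw)
    convert h3 using 2 with n
    rw [coeff_map, coeff_map, coeff_rescale, neg_pow w n]
    simp
    ring

theorem IntS.pow_comp {f : ℂ → ℂ} (hf : IntS f) {m : ℕ} (hm : 0 < m) :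
    IntS (fun w => f (w ^ m)) := by
  obtain ⟨A, h1, h2⟩ := hf
  refine ⟨PowerSeries.mk (fun n => if m ∣ n then coeff (n / m) A else 0), ?_, ?_⟩
  · rw [← coeff_zero_eq_constantCoeff_apply, coeff_mk]; simpa using h1
  · intro w hw
    have hwm : ‖w ^ m‖ < 1 := by
      rw [norm_pow]; exact pow_lt_one₀ (norm_nonneg _) hw hm.ne'
    have h3 := h2 (w ^ m) hwm
    have hinj : Function.Injective (fun k : ℕ => m * k) := fun a b h => by
      exact Nat.eq_of_mul_eq_mul_left hm h
    rw [← hinj.hasSum_iff]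
    · convert h3 using 2 with n
      simp only [Function.comp_apply]
      rw [coeff_map, coeff_map, coeff_mk, if_pos (Dvd.intro _ rfl), Nat.mul_div_cancel_left _ hm,
        pow_mul]
    · intro n hn
      rw [coeff_map, coeff_mk, if_neg, map_zero, zero_mul]
      rintro ⟨k, rfl⟩
      exact hn ⟨k, rfl⟩

/-! ### Euler's product -/

theorem iteratedDeriv_poly (p : Polynomial ℂ) (k : ℕ) :
    iteratedDeriv k (fun x => p.eval x) = fun x => (Polynomial.derivative^[k] p).eval x := by
  induction k with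
  | zero => simp
  | succ k ih =>
    rw [iteratedDeriv_succ, ih]
    funext x
    rw [Polynomial.deriv, Function.iterate_succ_apply']

theorem iteratedDeriv_poly_zero (p : Polynomial ℤ) (k : ℕ) :
    iteratedDeriv k (fun x : ℂ => (p.map (Int.castRingHom ℂ)).eval x) 0 / (k.factorial : ℂ)
      = (p.coeff k : ℂ) := by
  rw [iteratedDeriv_poly]
  simp only
  rw [← Polynomial.coeff_zero_eq_eval_zero, Polynomial.coeff_iterate_derivative, zero_add,
    Nat.descFactorial_self, Polynomial.coeff_map, nsmul_eq_mul]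
  have : (k.factorial : ℂ) ≠ 0 := by exact_mod_cast k.factorial_ne_zero
  field_simp
  simp

theorem tendsto_iteratedDeriv {F : ℕ → ℂ → ℂ} {f : ℂ → ℂ}
    (h : TendstoLocallyUniformlyOn F f atTop (ball 0 1))
    (hF : ∀ n, Differentiable ℂ (F n)) (k : ℕ) :
    TendstoLocallyUniformlyOn (fun n => iteratedDeriv k (F n)) (iteratedDeriv k f) atTop
      (ball 0 1) := by
  induction k with
  | zero => simpa using h
  | succ k ih =>
    simp only [iteratedDeriv_succ]
    apply TendstoLocallyUniformlyOn.deriv ih _ isOpen_ball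
    apply Eventually.of_forall
    intro n
    exact ((hF n).contDiff (n := (k+1 : ℕ)) |>.differentiable_iteratedDeriv k (by exact_mod_cast Nat.lt_succ_self k)).differentiableOn

theorem int_of_tendsto {z : ℕ → ℤ} {c : ℂ} (h : Tendsto (fun n => (z n : ℂ)) atTop (𝓝 c)) :
    ∃ m : ℤ, c = m := by
  have h1 : Tendsto (fun n => ((z n : ℂ)).re) atTop (𝓝 c.re) :=
    (Complex.continuous_re.tendsto c).comp h
  have h2 : Tendsto (fun n => ((z n : ℂ)).im) atTop (𝓝 c.im) :=
    (Complex.continuous_im.tendsto c).comp h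
  simp only [Complex.intCast_re, Complex.intCast_im] at h1 h2
  have h3 : c.im = 0 := tendsto_nhds_unique h2 tendsto_const_nhds
  have h4 : c.re ∈ Set.range (Int.cast : ℤ → ℝ) :=
    Int.isClosedEmbedding_coe_real.isClosed_range.mem_of_tendsto h1
      (Eventually.of_forall fun n => ⟨z n, rfl⟩)
  obtain ⟨m, hm⟩ := h4
  refine ⟨m, Complex.ext ?_ ?_⟩
  · rw [← hm]; simp
  · rw [h3]; simp

theorem IntS_EE : IntS EE := by
  have hd := differentiableOn_EE
  set P : ℕ → Polynomial ℤ := fun n => ∏ i ∈ Finset.range n, (1 - Polynomial.X ^ (i + 1)) with hP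
  have hlim : TendstoLocallyUniformlyOn
      (fun n (x : ℂ) => ((P n).map (Int.castRingHom ℂ)).eval x) EE atTop (ball 0 1) := by
    have h1 := ModularForm.multipliableLocallyUniformlyOn_one_sub_pow.hasProdLocallyUniformlyOn
    have h2 := h1.tendstoLocallyUniformlyOn_finsetRange
    refine h2.congr (fun n x hx => ?_) |>.congr_right (fun x hx => ?_)
    · simp [hP, Polynomial.map_prod, Polynomial.eval_prod]
    · rfl
  have hcoef : ∀ k, ∃ m : ℤ, coeff k (tay EE) = m := by
    intro k
    have h1 := (tendsto_iteratedDeriv hlim (fun n => Polynomial.differentiable _) k).tendsto_at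
      (mem_ball_self one_pos)
    have h2 : Tendsto (fun n => iteratedDeriv k (fun x : ℂ => ((P n).map (Int.castRingHom ℂ)).eval x) 0
        / (k.factorial : ℂ)) atTop (𝓝 (iteratedDeriv k EE 0 / (k.factorial : ℂ))) :=
      h1.div_const _
    simp only [iteratedDeriv_poly_zero] at h2
    rw [tay, coeff_mk]
    exact int_of_tendsto h2
  choose m hm using hcoef
  refine ⟨PowerSeries.mk m, ?_, ?_⟩
  · have h1 := (IS_tay hd).const
    rw [EE_zero, ← coeff_zero_eq_constantCoeff_apply, hm 0] at h1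
    rw [← coeff_zero_eq_constantCoeff_apply, coeff_mk]
    exact_mod_cast h1
  · have : map (Int.castRingHom ℂ) (PowerSeries.mk m) = tay EE := by
      ext k
      rw [coeff_map, coeff_mk, hm k]; simp
    rw [this]
    exact IS_tay hd

theorem IntS_phi4 : IntS phi4 := by
  have h1 : IntS (fun w => EE (w ^ 2)) := IntS_EE.pow_comp (by norm_num)
  have h2 := (IntS_EE.pow 8).mul ((h1.pow 4).inv (fun w hw =>
    pow_ne_zero _ (EE_ne_zero (norm_pow_lt_one hw (by norm_num)))))
  refine h2.congr (fun w _ => ?_)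
  simp only [phi4, div_eq_mul_inv]

theorem IntS_phi2 : IntS phi2 := by
  have h1 : IntS (fun w => EE (w ^ 2)) := IntS_EE.pow_comp (by norm_num)
  have h4 : IntS (fun w => EE (w ^ 4)) := IntS_EE.pow_comp (by norm_num)
  have h2 := (h4.pow 8).mul ((h1.pow 4).inv (fun w hw =>
    pow_ne_zero _ (EE_ne_zero (norm_pow_lt_one hw (by norm_num)))))
  refine h2.congr (fun w _ => ?_)
  simp only [phi2, div_eq_mul_inv]

theorem IntS.zpow {f : ℂ → ℂ} (hf : IntS f) (hne : ∀ w, ‖w‖ < 1 → f w ≠ 0) (e : ℤ) :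
    IntS (fun w => f w ^ e) := by
  cases e with
  | ofNat n => simpa using hf.pow n
  | negSucc n =>
    have h1 := (hf.inv hne).pow (n + 1)
    refine h1.congr (fun w _ => ?_)
    rw [zpow_negSucc, inv_pow]

/-- denominators of the Taylor coefficients of an `N`-th root -/
theorem tay_root_int {N : ℕ} (hN : 0 < N) {f R : ℂ → ℂ} (hf : IntS f)
    (hR : DifferentiableOn ℂ R (ball 0 1)) (hR0 : R 0 = 1) (hRN : ∀ w, ‖w‖ < 1 → R w ^ N = f w)
    (k : ℕ) : ∃ n : ℤ, (N : ℂ) ^ (2 * k) * coeff k (tay R) = n := by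
  obtain ⟨A, h1, h2⟩ := hf
  have h3 := IS_tay hR
  have h4 : (tay R) ^ N = map (Int.castRingHom ℂ) A :=
    ((h3.pow N).congr hRN).unique h2
  exact root_int hN A h1 (tay R) (by rw [h3.const, hR0]) h4 k

/-- the form used for `F_{a,b}` -/
theorem tay_int {N : ℕ} (hN : 0 < N) (a b : ℕ) (e : ℤ) {R : ℂ → ℂ}
    (hR : DifferentiableOn ℂ R (ball 0 1)) (hR0 : R 0 = 1)
    (hRN : ∀ w, ‖w‖ < 1 → R w ^ N = phi2 w ^ a * phi4 w ^ b * phi4 (-w) ^ e)
    (k : ℕ) : ∃ n : ℤ, (N : ℂ) ^ (2 * k) * coeff k (tay R) = n := by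
  apply tay_root_int hN _ hR hR0 hRN k
  apply ((IntS_phi2.pow a).mul (IntS_phi4.pow b)).mul
  exact IntS.zpow IntS_phi4.neg_comp (fun w hw => phi4_ne_zero (by simpa using hw)) e

end GP
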